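import Pool.Agent.Lib.MP_682396_ag.Noether

/-!
# Completions of Noetherian rings at maximal ideals with a coefficient field
-/

set_option autoImplicit false
set_option linter.unusedSectionVars false

open Module IsLocalRing
open scoped Pointwise

universe u v w

namespace Pool.Agent.Lib.MP_682396_ag

section Noeth

/-- A complete local ring with a coefficient field and finitely generated maximal ideal is
Noetherian. -/
theorem isNoetherianRing_of_complete {K : Type*} [Field K] {S : Type*} [CommRing S]
    [Algebra K S] (I : Ideal S) (hI : I.FG) [IsAdicComplete I S]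
    (hres : ∀ s : S, ∃ c : K, s - algebraMap K S c ∈ I) : IsNoetherianRing S := by
  obtain ⟨n, y, hy⟩ := Submodule.fg_iff_exists_fin_generating_family.mp hI
  have hyI : ∀ l, y l ∈ I := fun l => by
    rw [← hy]
    exact Submodule.subset_span ⟨l, rfl⟩
  obtain ⟨φ, hφ⟩ := exists_eval (K := K) I y hyI
  let Λ := MvPowerSeries (Fin n) K
  let _ : Algebra Λ S := φ.toAlgebra
  let IΛ : Ideal Λ := Ideal.span (Set.range MvPowerSeries.X)
  have hX : ∀ l, algebraMap Λ S (MvPowerSeries.X l) = y l := by
    intro l
    show φ (MvPowerSeries.X l) = y l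
    rw [← MvPolynomial.coe_X, hφ, MvPolynomial.aeval_X]
  have hC : ∀ c : K, algebraMap Λ S (MvPowerSeries.C c) = algebraMap K S c := by
    intro c
    show φ (MvPowerSeries.C c) = _
    rw [← MvPolynomial.coe_C, hφ, MvPolynomial.aeval_C]
  have hmap : IΛ.map (algebraMap Λ S) = I := by
    rw [Ideal.map_span, ← Set.range_comp, ← hy]
    congr 1
    congr 1
    funext l
    exact hX l
  have hhaus : IsHausdorff IΛ S := by
    rw [← IsHausdorff.map_algebraMap_iff (S := S), hmap]
    infer_instance
  have hsurj : Function.Surjective (Algebra.linearMap Λ S) := by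
    apply surjective_of_mkQ_comp_surjective (I := IΛ)
    intro q
    obtain ⟨s, rfl⟩ := Submodule.Quotient.mk_surjective _ q
    obtain ⟨c, hc⟩ := hres s
    refine ⟨MvPowerSeries.C c, ?_⟩
    rw [LinearMap.comp_apply, Submodule.mkQ_apply, Submodule.Quotient.eq,
      Ideal.smul_top_eq_map, hmap, Algebra.linearMap_apply, hC, ← neg_sub]
    exact neg_mem hc
  exact isNoetherianRing_of_surjective Λ S (algebraMap Λ S) hsurj

end Noeth

/-- Completion at a maximal ideal. -/
theorem exists_completion {K : Type*} [Field K] {A : Type w} [CommRing A] [IsNoetherianRing A]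
    [Algebra K A] (m : Ideal A) [m.IsMaximal] (hres : ∀ a : A, ∃ c : K, a - algebraMap K A c ∈ m) :
    ∃ (S : Type w) (_ : CommRing S) (_ : Algebra A S) (_ : IsLocalRing S),
      Module.Flat A S ∧ IsNoetherianRing S ∧ IsAdicComplete (maximalIdeal S) S ∧
      m.map (algebraMap A S) = maximalIdeal S ∧
      ∀ (D : Type v) [CommRing D] [IsLocalRing D] [IsAdicComplete (maximalIdeal D) D]
        (ev : A →+* D), (∀ a ∈ m, ev a ∈ maximalIdeal D) →
        ∃ σ : S →+* D, ∀ a, σ (algebraMap A S a) = ev a := by
  have hfg : m.FG := IsNoetherian.noetherian m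
  let S := AdicCompletion m A
  have hc : IsAdicComplete (m.map (algebraMap A S)) S := AdicCompletion.isAdicComplete_self m hfg
  have hmax : (m.map (algebraMap A S)).IsMaximal :=
    AdicCompletion.isMaximal_map_of_le m m le_rfl hfg
  have hloc : IsLocalRing S := isLocalRing_of_isAdicComplete_maximal (m.map (algebraMap A S))
  have hmeq : m.map (algebraMap A S) = maximalIdeal S := IsLocalRing.eq_maximalIdeal hmax
  refine ⟨S, inferInstance, inferInstance, hloc, inferInstance, ?_, ?_, hmeq, ?_⟩
  · let _ : Algebra K S := ((algebraMap A S).comp (algebraMap K A)).toAlgebra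
    refine isNoetherianRing_of_complete (K := K) (m.map (algebraMap A S)) (hfg.map _) ?_
    intro s
    obtain ⟨a, ha⟩ := Ideal.Quotient.mk_surjective (AdicCompletion.evalOneₐ m s)
    obtain ⟨c, hc⟩ := hres a
    refine ⟨c, ?_⟩
    have h1 : s - algebraMap A S a ∈ m.map (algebraMap A S) := by
      rw [← AdicCompletion.ker_evalOneₐ_eq_map m hfg, RingHom.mem_ker, map_sub, sub_eq_zero]
      have h2 := RingHom.congr_fun (AdicCompletion.evalOneₐ_comp_algebraMap_eq_mk m) a
      exact ha.symm.trans h2.symm
    have h3 : s - algebraMap K S c = (s - algebraMap A S a) +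
        algebraMap A S (a - algebraMap K A c) := by
      rw [map_sub]
      show s - algebraMap A S (algebraMap K A c) = _
      ring
    rw [h3]
    exact add_mem h1 (Ideal.mem_map_of_mem _ hc)
  · rw [← hmeq]
    exact hc
  · intro D _ _ _ ev hev
    have hle : ∀ n, m ^ n ≤ (maximalIdeal D ^ n).comap ev := by
      intro n
      rw [← Ideal.map_le_iff_le_comap, Ideal.map_pow]
      exact Ideal.pow_right_mono (Ideal.map_le_iff_le_comap.mpr hev) n
    let f : ∀ n : ℕ, S →+* D ⧸ maximalIdeal D ^ n := fun n =>
      (Ideal.quotientMap (maximalIdeal D ^ n) ev (hle n)).comp (AdicCompletion.evalₐ m n).toRingHom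
    have hf : ∀ {i j : ℕ} (hij : i ≤ j),
        (Ideal.Quotient.factorPow (maximalIdeal D) hij).comp (f j) = f i := by
      intro i j hij
      ext s
      obtain ⟨c, rfl⟩ := AdicCompletion.mk_surjective m A s
      show Ideal.Quotient.factorPow (maximalIdeal D) hij (Ideal.quotientMap (maximalIdeal D ^ j) ev
        (hle j) (AdicCompletion.evalₐ m j (AdicCompletion.mk m A c))) =
        Ideal.quotientMap (maximalIdeal D ^ i) ev
        (hle i) (AdicCompletion.evalₐ m i (AdicCompletion.mk m A c))
      rw [AdicCompletion.evalₐ_mk, AdicCompletion.evalₐ_mk]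
      have h1 : (Ideal.Quotient.mk (m ^ i) (c.val i)) = Ideal.Quotient.mk (m ^ i) (c.val j) := by
        have h2 := c.property hij
        rw [SModEq.sub_mem, smul_eq_mul, Ideal.mul_top] at h2
        exact Ideal.Quotient.eq.mpr h2
      rw [h1]
      rfl
    refine ⟨IsAdicComplete.liftRingHom (maximalIdeal D) f hf, fun a => ?_⟩
    rw [IsHausdorff.eq_iff_smodEq (I := maximalIdeal D)]
    intro n
    rw [SModEq.sub_mem, smul_eq_mul, Ideal.mul_top, ← Ideal.Quotient.eq,
      IsAdicComplete.mk_liftRingHom]
    have h1 : AdicCompletion.evalₐ m n (algebraMap A S a) = Ideal.Quotient.mk (m ^ n) a :=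
      AlgHom.commutes _ a
    show Ideal.quotientMap (maximalIdeal D ^ n) ev (hle n) (AdicCompletion.evalₐ m n
      (algebraMap A S a)) = _
    rw [h1]
    rfl

/-- The maximal ideal of a quotient of a local ring. -/
theorem map_mk_maximalIdeal {S : Type*} [CommRing S] [IsLocalRing S] (q : Ideal S)
    [IsLocalRing (S ⧸ q)] :
    (maximalIdeal S).map (Ideal.Quotient.mk q) = maximalIdeal (S ⧸ q) := by
  have h1 : ((maximalIdeal (S ⧸ q)).comap (Ideal.Quotient.mk q)).IsMaximal :=
    Ideal.comap_isMaximal_of_surjective _ Ideal.Quotient.mk_surjective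
  rw [← IsLocalRing.eq_maximalIdeal h1,
    Ideal.map_comap_of_surjective _ Ideal.Quotient.mk_surjective]

/-- Quotients of complete Noetherian local rings are complete. -/
theorem isAdicComplete_quotient {S : Type*} [CommRing S] [IsNoetherianRing S] [IsLocalRing S]
    [IsAdicComplete (maximalIdeal S) S] (q : Ideal S) [IsLocalRing (S ⧸ q)] :
    IsAdicComplete (maximalIdeal (S ⧸ q)) (S ⧸ q) := by
  have h1 : IsPrecomplete (maximalIdeal S) (S ⧸ q) := by
    rw [← AdicCompletion.of_surjective_iff]
    have h2 : Function.Surjective (AdicCompletion.map (maximalIdeal S) q.mkQ) :=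
      AdicCompletion.map_surjective _ (Submodule.mkQ_surjective q)
    intro y
    obtain ⟨z, rfl⟩ := h2 y
    obtain ⟨s, rfl⟩ := AdicCompletion.of_surjective (maximalIdeal S) S z
    exact ⟨q.mkQ s, (AdicCompletion.map_of _ _ _).symm⟩
  have h3 : IsHausdorff (maximalIdeal (S ⧸ q)) (S ⧸ q) := inferInstance
  have h4 : IsPrecomplete (maximalIdeal (S ⧸ q)) (S ⧸ q) := by
    rw [← map_mk_maximalIdeal q]
    exact (IsPrecomplete.map_algebraMap_iff (S := S ⧸ q)).mpr h1
  exact { h3, h4 with }

end Pool.Agent.Lib.MP_682396_ag
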