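import Pool.Agent.Lib.MP_682396_ag.Curve.CoordD
import Pool.Agent.Lib.MP_682396_ag.Curve.Compl
import Pool.Agent.Lib.MP_682396_ag.Isolated

/-!
# Complete local rings as finite algebras over power series rings with a distinguished variable
-/

set_option autoImplicit false
set_option linter.unusedSectionVars false

open Module IsLocalRing RingTheory.Sequence
open scoped Pointwise

universe u v

namespace Pool.Agent.Lib.MP_682396_ag

section Eval

variable {B : Type*} [CommRing B] {R : Type*} [CommRing R] [Algebra B R] (I : Ideal R)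
  [IsAdicComplete I R] {σ : Type*} [Finite σ] (y : σ → R) (hy : ∀ l, y l ∈ I)

open MvPowerSeries MvPolynomial in
include hy in
theorem aeval_mem_powD {n : ℕ} {p : MvPolynomial σ B}
    (hp : p ∈ idealOfVars σ B ^ n) : MvPolynomial.aeval y p ∈ I ^ n := by
  have h1 : (idealOfVars σ B).map (MvPolynomial.aeval y : MvPolynomial σ B →ₐ[B] R) ≤ I := by
    rw [Ideal.map_le_iff_le_comap, idealOfVars, Ideal.span_le]
    rintro _ ⟨l, rfl⟩
    rw [SetLike.mem_coe, Ideal.mem_comap, MvPolynomial.aeval_X]
    exact hy l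
  have h2 : MvPolynomial.aeval y p ∈
      ((idealOfVars σ B) ^ n).map (MvPolynomial.aeval y : MvPolynomial σ B →ₐ[B] R) :=
    Ideal.mem_map_of_mem _ hp
  rw [Ideal.map_pow] at h2
  exact Ideal.pow_right_mono h1 n h2

open MvPowerSeries MvPolynomial in
include hy in
/-- Evaluation of power series at elements of an ideal of a complete ring. -/
theorem exists_evalD : ∃ φ : MvPowerSeries σ B →+* R,
    ∀ p : MvPolynomial σ B, φ (p : MvPowerSeries σ B) = MvPolynomial.aeval y p := by
  let g : ∀ n, (MvPolynomial σ B ⧸ idealOfVars σ B ^ n) →+* R ⧸ I ^ n := fun n =>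
    Ideal.Quotient.lift _ ((Ideal.Quotient.mk (I ^ n)).comp
      (MvPolynomial.aeval y : MvPolynomial σ B →ₐ[B] R).toRingHom) (fun p hp =>
        Ideal.Quotient.eq_zero_iff_mem.mpr (aeval_mem_powD I y hy hp))
  have hg : ∀ n p, g n (Ideal.Quotient.mk _ p) = Ideal.Quotient.mk (I ^ n) (MvPolynomial.aeval y p) :=
    fun n p => rfl
  let f : ∀ n, MvPowerSeries σ B →+* R ⧸ I ^ n := fun n =>
    (g n).comp (truncTotalAlgHom σ B n).toRingHom
  have hf : ∀ n p, f n p = Ideal.Quotient.mk (I ^ n) (MvPolynomial.aeval y (truncTotal n p)) :=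
    fun n p => rfl
  refine ⟨IsAdicComplete.liftRingHom I f ?_, ?_⟩
  · intro m n hle
    ext p
    rw [RingHom.comp_apply, hf, hf]
    show Ideal.Quotient.mk (I ^ m) _ = _
    rw [Ideal.Quotient.eq, ← map_sub]
    exact aeval_mem_powD I y hy (truncTotal_sub_truncTotal_mem_pow_idealOfVars hle le_rfl p)
  · intro p
    rw [IsHausdorff.eq_iff_smodEq (I := I)]
    intro n
    rw [SModEq.sub_mem, smul_eq_mul, Ideal.mul_top, ← Ideal.Quotient.eq,
      IsAdicComplete.mk_liftRingHom, hf, Ideal.Quotient.eq, ← map_sub]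
    apply aeval_mem_powD I y hy
    rw [MvPolynomial.mem_pow_idealOfVars_iff']
    intro x hx
    rw [MvPolynomial.coeff_sub, sub_eq_zero, coeff_truncTotal _ hx, MvPolynomial.coeff_coe]

include hy in
/-- Algebra structure over a power series ring by evaluation. -/
theorem exists_algebra_eval : ∃ _ : Algebra (MvPowerSeries σ B) R,
    IsScalarTower B (MvPowerSeries σ B) R ∧
      ∀ l, algebraMap (MvPowerSeries σ B) R (MvPowerSeries.X l) = y l := by
  obtain ⟨φ, hφ⟩ := exists_evalD (B := B) I y hy
  let _ : Algebra (MvPowerSeries σ B) R := φ.toAlgebra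
  refine ⟨inferInstance, ?_, ?_⟩
  · apply IsScalarTower.of_algebraMap_eq
    intro c
    show _ = φ _
    rw [← MvPowerSeries.c_eq_algebraMap, ← MvPolynomial.coe_C, hφ, MvPolynomial.aeval_C]
  · intro l
    show φ (MvPowerSeries.X l) = y l
    rw [← MvPolynomial.coe_X, hφ, MvPolynomial.aeval_X]

end Eval

section Finite

/-- Finiteness over a power series ring from finiteness of the reduction. -/
theorem finite_of_finite_quotientD {B : Type*} [CommRing B] {R : Type*} [CommRing R] [Algebra B R]
    {σ : Type*} [Finite σ] [Algebra (MvPowerSeries σ B) R] [IsScalarTower B (MvPowerSeries σ B) R]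
    (J : Ideal R) (hJ : J = Ideal.span (Set.range fun l : σ =>
      algebraMap (MvPowerSeries σ B) R (MvPowerSeries.X l)))
    (hfin : Module.Finite B (R ⧸ J)) (hh : IsHausdorff J R) :
    Module.Finite (MvPowerSeries σ B) R := by
  let I : Ideal (MvPowerSeries σ B) := Ideal.span (Set.range MvPowerSeries.X)
  have hIJ : I.map (algebraMap (MvPowerSeries σ B) R) = J := by
    rw [Ideal.map_span, ← Set.range_comp, hJ]
    rfl
  obtain ⟨k, f₀, hf₀⟩ := Module.Finite.exists_fin' B (R ⧸ J)
  choose s hs using fun j : Fin k => Ideal.Quotient.mk_surjective (f₀ (Pi.single j 1))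
  let f : (Fin k → MvPowerSeries σ B) →ₗ[MvPowerSeries σ B] R :=
    Fintype.linearCombination (MvPowerSeries σ B) s
  have hprec : IsPrecomplete I (Fin k → MvPowerSeries σ B) := isPrecomplete_pi I k
  have hhaus : IsHausdorff I R := by
    rw [← IsHausdorff.map_algebraMap_iff (S := R), hIJ]
    exact hh
  have hsurj : Function.Surjective f := by
    apply surjective_of_mkQ_comp_surjective (I := I)
    intro q
    obtain ⟨r, rfl⟩ := Submodule.Quotient.mk_surjective _ q
    obtain ⟨c, hc⟩ := hf₀ (Ideal.Quotient.mk J r)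
    refine ⟨fun j => algebraMap B (MvPowerSeries σ B) (c j), ?_⟩
    rw [LinearMap.comp_apply, Submodule.mkQ_apply, Submodule.Quotient.eq]
    have h1 : f (fun j => algebraMap B (MvPowerSeries σ B) (c j)) - r ∈ J := by
      rw [← Ideal.Quotient.eq, ← hc, Fintype.linearCombination_apply, map_sum]
      have h2 : c = ∑ j, c j • Pi.single j 1 := by
        conv_lhs => rw [← Finset.univ_sum_single c]
        refine Finset.sum_congr rfl fun j _ => ?_
        rw [← Pi.single_smul, smul_eq_mul, mul_one]
      conv_rhs => rw [h2]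
      rw [map_sum]
      refine Finset.sum_congr rfl fun j _ => ?_
      rw [map_smul f₀, ← hs j, algebraMap_smul]
      rfl
    rw [Ideal.smul_top_eq_map, hIJ]
    exact h1
  exact Module.Finite.of_surjective f hsurj

variable {K : Type*} [Field K] {R : Type*} [CommRing R] [IsNoetherianRing R] [IsLocalRing R]
  [Algebra K R] [IsAdicComplete (maximalIdeal R) R]
  [Algebra (PowerSeries K) R] [IsScalarTower K (PowerSeries K) R]

/-- Quotients for which the distinguished variable is a parameter are finite over the power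
series ring in that variable. -/
theorem finite_quotient_powerSeries
    (hres : ∀ r : R, ∃ c : K, r - algebraMap K R c ∈ maximalIdeal R)
    (hf : algebraMap (PowerSeries K) R PowerSeries.X ∈ maximalIdeal R)
    (J : Ideal R) (hJ : J ≤ maximalIdeal R)
    (hrad : maximalIdeal R ≤ (J ⊔ Ideal.span {algebraMap (PowerSeries K) R PowerSeries.X}).radical) :
    Module.Finite (PowerSeries K) (R ⧸ J) := by
  have hnt : Nontrivial (R ⧸ J) := by
    rw [Ideal.Quotient.nontrivial_iff]
    rintro rfl
    exact (maximalIdeal.isMaximal R).ne_top (top_le_iff.mp hJ)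
  have hloc : IsLocalRing (R ⧸ J) := IsLocalRing.of_surjective' _ Ideal.Quotient.mk_surjective
  have hcomp : IsAdicComplete (maximalIdeal (R ⧸ J)) (R ⧸ J) := isAdicComplete_quotient J
  have hmax := map_mk_maximalIdeal J
  let f' : R ⧸ J := Ideal.Quotient.mk J (algebraMap (PowerSeries K) R PowerSeries.X)
  have hf' : f' ∈ maximalIdeal (R ⧸ J) := by
    rw [← hmax]
    exact Ideal.mem_map_of_mem _ hf
  have hfin : Module.Finite K ((R ⧸ J) ⧸ Ideal.span {f'}) := by
    apply finite_quotient (K := K) (R := R ⧸ J)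
    · intro b
      obtain ⟨r, rfl⟩ := Ideal.Quotient.mk_surjective b
      obtain ⟨c, hc⟩ := hres r
      refine ⟨c, ?_⟩
      rw [← hmax]
      exact Ideal.mem_map_of_mem _ hc
    · rw [Ideal.span_singleton_le_iff_mem]
      exact hf'
    · rw [← hmax, Ideal.map_le_iff_le_comap]
      intro r hr
      obtain ⟨n, hn⟩ := hrad hr
      rw [Ideal.mem_comap]
      refine ⟨n, ?_⟩
      rw [← map_pow]
      obtain ⟨a, ha, b, hb, hab⟩ := Submodule.mem_sup.mp hn
      obtain ⟨c, rfl⟩ := Ideal.mem_span_singleton'.mp hb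
      rw [← hab, map_add, Ideal.Quotient.eq_zero_iff_mem.mpr ha, zero_add, map_mul]
      exact Ideal.mul_mem_left _ _ (Ideal.mem_span_singleton_self _)
  refine finite_of_finite_quotientD (B := K) (σ := Unit) (R := R ⧸ J) (Ideal.span {f'}) ?_ hfin ?_
  · rw [Set.range_unique]
    rfl
  · apply IsHausdorff.of_isLocalRing
    intro h
    rw [Ideal.span_singleton_eq_top] at h
    exact (mem_maximalIdeal _).mp hf' h

end Finite

end Pool.Agent.Lib.MP_682396_ag
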