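import Mathlib

/-!
# Contractions of associated primes along flat algebras
-/

set_option autoImplicit false
set_option linter.unusedSectionVars false

open Module IsLocalRing
open scoped Pointwise TensorProduct

universe u v w

namespace Pool.Agent.Lib.MP_682396_ag

/-- The associated primes of the base changes of a finite module along all flat algebras contract
to finitely many primes. -/
theorem exists_finite_contractions (A : Type u) [CommRing A] [IsNoetherianRing A] (N : Type v)
    [AddCommGroup N] [Module A N] [hN : Module.Finite A N] :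
    ∃ S : Set (Ideal A), S.Finite ∧ ∀ (L : Type w) [CommRing L] [Algebra A L] [Module.Flat A L]
      (q : Ideal L), IsAssociatedPrime q (L ⊗[A] N) → q.comap (algebraMap A L) ∈ S := by
  induction hN using IsNoetherianRing.induction_on_isQuotientEquivQuotientPrime A with
  | subsingleton N =>
    refine ⟨∅, Set.finite_empty, fun L _ _ _ q hq => ?_⟩
    exact absurd hq not_isAssociatedPrime_of_subsingleton
  | quotient N p e =>
    refine ⟨{p.1}, Set.finite_singleton _, fun L _ _ _ q hq => ?_⟩
    rw [Set.mem_singleton_iff]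
    obtain ⟨hq1, z, hz⟩ := hq
    have hz0 : z ≠ 0 := by
      rintro rfl
      apply hq1.ne_top
      rw [hz]
      simp
    ext a
    rw [Ideal.mem_comap, hz, Ideal.mem_radical_iff]
    constructor
    · rintro ⟨n, hn⟩
      by_contra ha
      have hinj : Function.Injective (LinearMap.lsmul A N (a ^ n)) := by
        intro y y' hy
        have h1 : a ^ n • e y = a ^ n • e y' := by
          rw [← map_smul, ← map_smul]
          exact congrArg e hy
        have h2 : (Ideal.Quotient.mk p.1 (a ^ n)) ≠ 0 := by
          rw [Ne, Ideal.Quotient.eq_zero_iff_mem]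
          intro h
          exact ha (p.2.mem_of_pow_mem n h)
        rw [← sub_eq_zero, ← smul_sub] at h1
        have h3 : (Ideal.Quotient.mk p.1 (a ^ n)) * (e y - e y') = 0 := by
          rw [← h1, Algebra.smul_def]
          rfl
        rcases mul_eq_zero.mp h3 with h4 | h4
        · exact absurd h4 h2
        · exact e.injective (sub_eq_zero.mp h4)
      have hinj' : Function.Injective (LinearMap.lTensor L (LinearMap.lsmul A N (a ^ n))) :=
        Module.Flat.lTensor_preserves_injective_linearMap _ hinj
      have h1 : LinearMap.lTensor L (LinearMap.lsmul A N (a ^ n)) =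
          LinearMap.lsmul A (L ⊗[A] N) (a ^ n) := by
        ext l m
        simp
      rw [h1] at hinj'
      rw [Submodule.mem_colon_singleton, Submodule.mem_bot, ← map_pow, algebraMap_smul] at hn
      apply hz0
      apply hinj'
      rw [map_zero]
      exact hn
    · intro ha
      refine ⟨1, ?_⟩
      rw [pow_one, Submodule.mem_colon_singleton, Submodule.mem_bot, algebraMap_smul]
      have h1 : LinearMap.lsmul A N a = 0 := by
        ext y
        apply e.injective
        rw [LinearMap.lsmul_apply, map_smul, LinearMap.zero_apply, map_zero]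
        obtain ⟨b, hb⟩ := Ideal.Quotient.mk_surjective (e y)
        rw [← hb, Algebra.smul_def]
        show Ideal.Quotient.mk p.1 a * Ideal.Quotient.mk p.1 b = 0
        rw [← map_mul, Ideal.Quotient.eq_zero_iff_mem]
        exact Ideal.mul_mem_right _ _ ha
      have h2 : LinearMap.lTensor L (LinearMap.lsmul A N a) =
          LinearMap.lsmul A (L ⊗[A] N) a := by
        ext l m
        simp
      have h3 : LinearMap.lsmul A (L ⊗[A] N) a z = 0 := by
        rw [← h2, h1, LinearMap.lTensor_zero, LinearMap.zero_apply]
      exact h3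
  | exact N₁ N₂ N₃ f g hf hg hfg h₁ h₃ =>
    obtain ⟨S₁, hS₁, h₁⟩ := h₁
    obtain ⟨S₃, hS₃, h₃⟩ := h₃
    refine ⟨S₁ ∪ S₃, hS₁.union hS₃, fun L _ _ _ q hq => ?_⟩
    have hf' : Function.Injective (LinearMap.baseChange L f) := by
      have := Module.Flat.lTensor_preserves_injective_linearMap (M := L) f hf
      exact this
    have hfg' : Function.Exact (LinearMap.baseChange L f) (LinearMap.baseChange L g) := by
      have := lTensor_exact L hfg hg
      exact this
    rcases associatedPrimes.subset_union_of_exact (R := L) hf' hfg' hq with h | h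
    · exact Or.inl (h₁ L q h)
    · exact Or.inr (h₃ L q h)

/-- A prime associated to the reduction above a minimal prime. -/
theorem exists_ass_quot {S : Type u} [CommRing S] [IsNoetherianRing S] [IsLocalRing S] {f : S}
    (hf : f ∈ maximalIdeal S) (hreg : IsSMulRegular S f) {q : Ideal S} (hq : q ∈ minimalPrimes S) :
    ∃ P : Ideal S, IsAssociatedPrime P (QuotSMulTop f S) ∧ q ≤ P ∧ f ∈ P := by
  have hann : Module.annihilator S S = ⊥ := by
    rw [Submodule.eq_bot_iff]
    intro a ha
    have := Module.mem_annihilator.mp ha 1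
    simpa using this
  have hass : IsAssociatedPrime q S := by
    apply Module.associatedPrimes.minimalPrimes_annihilator_subset_associatedPrimes S S
    rw [hann]
    exact hq
  obtain ⟨hqp, z₀, hz₀⟩ := isAssociatedPrime_iff.mp hass
  have hz₀' : ∀ a, a ∈ q ↔ a • z₀ = 0 := by
    intro a
    rw [hz₀, Submodule.mem_colon_singleton, Submodule.mem_bot]
  let U : Submodule S S := Submodule.torsionBySet S S q
  have hU : ∀ m, m ∈ U ↔ ∀ a ∈ q, a • m = 0 := by
    intro m
    rw [Submodule.mem_torsionBySet_iff]
    exact ⟨fun h a ha => h ⟨a, ha⟩, fun h a => h a.1 a.2⟩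
  have hz₀U : z₀ ∈ U := (hU z₀).mpr fun a ha => (hz₀' a).mp ha
  obtain ⟨z, hzU, hz⟩ : ∃ z ∈ U, z ∉ (f • ⊤ : Submodule S S) := by
    by_contra hcon
    push Not at hcon
    have h1 : U ≤ maximalIdeal S • U := by
      intro u hu
      obtain ⟨m, -, rfl⟩ := Submodule.mem_smul_pointwise_iff_exists _ _ _ |>.mp (hcon u hu)
      apply Submodule.smul_mem_smul hf
      rw [hU] at hu ⊢
      intro a ha
      apply hreg
      simp only [smul_zero]
      rw [smul_comm]
      exact hu a ha
    have h2 : U = ⊥ := Submodule.eq_bot_of_le_smul_of_le_jacobson_bot (maximalIdeal S) U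
      (IsNoetherian.noetherian U) h1 (IsLocalRing.maximalIdeal_le_jacobson _)
    have h3 : z₀ = 0 := by
      rw [h2] at hz₀U
      exact (Submodule.mem_bot S).mp hz₀U
    apply hqp.ne_top
    rw [Ideal.eq_top_iff_one, hz₀', h3, smul_zero]
  have hz' : (Submodule.Quotient.mk z : QuotSMulTop f S) ≠ 0 := by
    intro h
    exact hz ((Submodule.Quotient.mk_eq_zero _).mp h)
  obtain ⟨P, hP, hle⟩ := exists_le_isAssociatedPrime_of_isNoetherianRing S _ hz'
  refine ⟨P, hP, fun a ha => ?_, ?_⟩
  · apply hle
    rw [Submodule.mem_colon_singleton, Submodule.mem_bot, ← Submodule.Quotient.mk_smul,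
      (hU z).mp hzU a ha, Submodule.Quotient.mk_zero]
  · apply hle
    rw [Submodule.mem_colon_singleton, Submodule.mem_bot, ← Submodule.Quotient.mk_smul]
    exact (Submodule.Quotient.mk_eq_zero _).mpr (Submodule.smul_mem_pointwise_smul _ _ ⊤ trivial)

/-- Finitely many primes of the base suffice. -/
theorem exists_finite_primes (A : Type u) [CommRing A] [IsNoetherianRing A] (f : A)
    (hreg : IsSMulRegular A f) :
    ∃ S : Set (Ideal A), S.Finite ∧ ∀ (L : Type w) [CommRing L] [Algebra A L] [Module.Flat A L]
      [IsNoetherianRing L] [IsLocalRing L], algebraMap A L f ∈ maximalIdeal L →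
      ∀ q ∈ minimalPrimes L, ∃ P : Ideal L, P.IsPrime ∧ q ≤ P ∧ algebraMap A L f ∈ P ∧
        P.comap (algebraMap A L) ∈ S := by
  obtain ⟨S, hS, h⟩ := exists_finite_contractions.{u, u, w} A (QuotSMulTop f A)
  refine ⟨S, hS, fun L _ _ _ _ _ hf q hq => ?_⟩
  have hreg' : IsSMulRegular L (algebraMap A L f) := hreg.of_flat
  obtain ⟨P, hP, hqP, hfP⟩ := exists_ass_quot hf hreg' hq
  refine ⟨P, hP.isPrime, hqP, hfP, h L P ?_⟩
  let e : QuotSMulTop (algebraMap A L f) L ≃ₗ[L] L ⊗[A] QuotSMulTop f A :=
    (QuotSMulTop.congr (algebraMap A L f) (TensorProduct.AlgebraTensorModule.rid A L L).symm) ≪≫ₗ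
      QuotSMulTop.algebraMapTensorEquivTensorQuotSMulTop f A L
  exact e.isAssociatedPrime_iff.mp hP

end Pool.Agent.Lib.MP_682396_ag
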