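import Pool.Agent.Lib.MP_682396_ag.Curve.KL

/-!
# Coordinates over a commutative base ring
-/

set_option autoImplicit false
set_option linter.unusedSectionVars false

open Module
open scoped Pointwise

universe u v w

namespace Pool.Agent.Lib.MP_682396_ag

open Tw

section Decomp

variable {K : Type*} [CommRing K] {d : ℕ}

open MvPowerSeries in
theorem exists_decompD (s : Finset (Fin d)) (c : Fin d → ℕ) (f : MvPowerSeries (Fin d) K)
    (h : ∀ α : Fin d →₀ ℕ, (∀ l ∈ s, α l < c l) → coeff α f = 0) :
    ∃ g : Fin d → MvPowerSeries (Fin d) K, f = ∑ l ∈ s, X l ^ c l * g l := by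
  classical
  induction s using Finset.induction_on generalizing f with
  | empty =>
    refine ⟨0, ?_⟩
    rw [Finset.sum_empty]
    ext α
    rw [h α (by simp), coeff_zero]
  | insert l s hl ih =>
    let f₁ : MvPowerSeries (Fin d) K := fun α => if α l < c l then 0 else coeff α f
    let f₂ : MvPowerSeries (Fin d) K := fun α => if α l < c l then coeff α f else 0
    have h₁ : ∀ α, coeff α f₁ = if α l < c l then 0 else coeff α f := fun _ => rfl
    have h₂ : ∀ α, coeff α f₂ = if α l < c l then coeff α f else 0 := fun _ => rfl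
    have hsum : f = f₁ + f₂ := by
      ext α
      rw [map_add, h₁, h₂]
      split_ifs <;> simp
    obtain ⟨g₁, hg₁⟩ : X l ^ c l ∣ f₁ := by
      rw [X_pow_dvd_iff]
      intro α hα
      rw [h₁, if_pos hα]
    obtain ⟨g₂, hg₂⟩ := ih f₂ (by
      intro α hα
      rw [h₂]
      split_ifs with h3
      · apply h
        intro l' hl'
        rcases Finset.mem_insert.mp hl' with rfl | h4
        · exact h3
        · exact hα l' h4
      · rfl)
    refine ⟨fun l' => if l' = l then g₁ else g₂ l', ?_⟩
    rw [Finset.sum_insert hl]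
    simp only [if_true]
    rw [hsum, hg₁]
    congr 1
    rw [hg₂]
    refine Finset.sum_congr rfl fun l' hl' => ?_
    rw [if_neg]
    rintro rfl
    exact hl hl'

open MvPowerSeries in
theorem coeff_X_mulD (α : Fin d →₀ ℕ) (l : Fin d) (f : MvPowerSeries (Fin d) K) :
    coeff α (X l * f) = if 0 < α l then coeff (α - Finsupp.single l 1) f else 0 := by
  rw [X_def, coeff_monomial_mul]
  have : Finsupp.single l 1 ≤ α ↔ 0 < α l := by
    rw [Finsupp.single_le_iff]
    exact Nat.succ_le_iff
  simp only [this, one_mul]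

end Decomp

section Seq

variable {K : Type*} [CommRing K] {R : Type u} [CommRing R] [Algebra K R] {Q : Type*} [Fintype Q]
  [DecidableEq Q] {d : ℕ} {x : Fin d → R}

/-- Coordinates on a module modulo the fifth level. -/
structure CoordD (K : Type*) [CommRing K] {R : Type u} [CommRing R] [Algebra K R] (Q : Type*)
    [Fintype Q] [DecidableEq Q] {d : ℕ} (x : Fin d → R)
    (M : Type u) [AddCommGroup M] [Module R M] where
  /-- The action. -/
  ρ : R →+* Matrix (Q × (Fin d → Fin 5)) (Q × (Fin d → Fin 5)) K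
  /-- Coordinates on the quotient by the fifth level. -/
  θ : M →+ (Q × (Fin d → Fin 5) → K)
  shift : ∀ l, ρ (x l) = shiftMat K Q l
  scalar : ∀ (c : K) (a b : Q × (Fin d → Fin 5)), ρ (algebraMap K R c) a b = if a = b then c else 0
  smul : ∀ (r : R) (m : M) (a : Q × (Fin d → Fin 5)), θ (r • m) a = ∑ b, ρ r a b * θ m b
  surj : Function.Surjective θ
  ker : ∀ m, θ m = 0 ↔ m ∈ lev x M fun _ => 5

namespace CoordD

variable {M : Type u} [AddCommGroup M] [Module R M] (C : CoordD K Q x M)

/-- The coordinates below level two. -/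
def θ2 : M →+ (Ix2 Q d → K) where
  toFun m a := C.θ m a.1
  map_zero' := by
    funext a
    rw [map_zero]; rfl
  map_add' m m' := by
    funext a
    rw [map_add]; rfl

theorem θ2_apply (m : M) (a : Ix2 Q d) : C.θ2 m a = C.θ m a.1 := rfl

theorem θ2_surjective : Function.Surjective C.θ2 := by
  classical
  intro v
  obtain ⟨m, hm⟩ := C.surj fun a => if h : ∀ l, (a.2 l).val < 2 then v ⟨a, h⟩ else 0
  refine ⟨m, ?_⟩
  funext a
  rw [θ2_apply, hm]
  exact dif_pos a.2

theorem θ2_smul (r : R) (m : M) (a : Ix2 Q d) :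
    C.θ2 (r • m) a = ∑ b : Ix2 Q d, C.ρ r a.1 b.1 * C.θ2 m b := by
  rw [θ2_apply, C.smul, ← Fintype.sum_subtype_add_sum_subtype
    (fun b : Q × (Fin d → Fin 5) => ∀ l, (b.2 l).val < 2)]
  simp only [θ2_apply]
  rw [add_eq_left]
  apply Finset.sum_eq_zero
  intro b _
  rw [rho_block C.shift r a.1 b.1 a.2 b.2, zero_mul]

/-- The coordinates as a linear map. -/
def toTw : M →ₗ[R] Tw C.ρ K where
  toFun := C.θ
  map_add' := map_add C.θ
  map_smul' r m := by
    apply Tw.ext
    intro a
    exact C.smul r m a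

theorem θ2_ker (m : M) : C.θ2 m = 0 ↔ m ∈ lev x M fun _ => 2 := by
  have h1 : LinearMap.ker C.toTw ≤ lev x M fun _ => 2 := by
    intro y hy
    exact lev_anti (fun _ => by norm_num) ((C.ker y).mp hy)
  rw [comap_lev C.toTw C.surj h1, Submodule.mem_comap, mem_lev_iff C.shift]
  constructor
  · intro h a ha
    exact congrFun h ⟨a, ha⟩
  · intro h
    funext a
    exact h a.1 a.2

theorem ρ_span {n : ℕ} {r : Fin n → R} {r' : R} {c : Fin n → K}
    (h : r' - ∑ k, algebraMap K R (c k) * r k ∈ lev x R fun _ => 5)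
    (a b : Q × (Fin d → Fin 5)) : C.ρ r' a b = ∑ k, c k * C.ρ (r k) a b := by
  have h1 := rho_lev5 C.shift h a b
  rw [map_sub, Matrix.sub_apply, sub_eq_zero] at h1
  rw [h1, map_sum, Matrix.sum_apply]
  refine Finset.sum_congr rfl fun k _ => ?_
  rw [map_mul, Matrix.mul_apply, Finset.sum_eq_single a]
  · rw [C.scalar, if_pos rfl]
  · intro b' _ hb'
    rw [C.scalar, if_neg (Ne.symm hb'), zero_mul]
  · intro h
    exact absurd (Finset.mem_univ _) h

end CoordD

end Seq

section Free

variable {K : Type*} [CommRing K] {d : ℕ} {R : Type u} [CommRing R]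
  [Algebra (MvPowerSeries (Fin d) K) R] {M : Type u} [AddCommGroup M] [Module R M]
  [Module (MvPowerSeries (Fin d) K) M] [IsScalarTower (MvPowerSeries (Fin d) K) R M]
  {Q : Type*} [Fintype Q] (b : Basis Q (MvPowerSeries (Fin d) K) M)

/-- The images of the variables. -/
noncomputable def xsD (K : Type*) [CommRing K] (d : ℕ) (R : Type u) [CommRing R]
    [Algebra (MvPowerSeries (Fin d) K) R] (l : Fin d) : R :=
  algebraMap (MvPowerSeries (Fin d) K) R (MvPowerSeries.X l)

theorem xsD_pow_smul (l : Fin d) (k : ℕ) (m : M) :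
    xsD K d R l ^ k • m = (MvPowerSeries.X l : MvPowerSeries (Fin d) K) ^ k • m := by
  rw [xsD, ← map_pow, algebraMap_smul]

theorem xsD_smul (l : Fin d) (m : M) :
    xsD K d R l • m = (MvPowerSeries.X l : MvPowerSeries (Fin d) K) • m := by
  rw [xsD, algebraMap_smul]

theorem mem_levS_iffD (s : Set (Fin d)) (c : Fin d → ℕ) (m : M) :
    m ∈ levS (xsD K d R) M s c ↔
      ∀ (q : Q) (α : Fin d →₀ ℕ), (∀ l ∈ s, α l < c l) → (b.repr m q).coeff α = 0 := by
  classical
  constructor
  · intro hm q α hα
    unfold levS at hm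
    induction hm using Submodule.iSup_induction' with
    | mem l w hw =>
      by_cases hl : l ∈ s
      · rw [iSup_pos hl] at hw
        obtain ⟨w', -, rfl⟩ := Submodule.mem_smul_pointwise_iff_exists _ _ _ |>.mp hw
        rw [xsD_pow_smul, map_smul, Finsupp.smul_apply, smul_eq_mul]
        exact MvPowerSeries.X_pow_dvd_iff.mp ⟨_, rfl⟩ α (hα l hl)
      · rw [iSup_neg hl, Submodule.mem_bot] at hw
        rw [hw, map_zero, Finsupp.zero_apply, map_zero]
    | zero => rw [map_zero, Finsupp.zero_apply, map_zero]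
    | add w w' _ _ h h' => rw [map_add, Finsupp.add_apply, map_add, h, h', add_zero]
  · intro h
    rw [← b.sum_repr m]
    refine Submodule.sum_mem _ fun q _ => ?_
    obtain ⟨g, hg⟩ := exists_decompD s.toFinset c (b.repr m q) (by
      intro α hα
      exact h q α fun l hl => hα l (Set.mem_toFinset.mpr hl))
    rw [hg, Finset.sum_smul]
    refine Submodule.sum_mem _ fun l hl => ?_
    rw [mul_smul, ← xsD_pow_smul (R := R)]
    have h1 : (xsD K d R l ^ c l) • (⊤ : Submodule R M) ≤ levS (xsD K d R) M s c :=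
      le_biSup (fun l => (xsD K d R l ^ c l) • (⊤ : Submodule R M)) (Set.mem_toFinset.mp hl)
    exact h1 (Submodule.smul_mem_pointwise_smul _ _ ⊤ trivial)

theorem mem_lev_iffD (c : Fin d → ℕ) (m : M) :
    m ∈ lev (xsD K d R) M c ↔
      ∀ (q : Q) (α : Fin d →₀ ℕ), (∀ l, α l < c l) → (b.repr m q).coeff α = 0 := by
  rw [← levS_univ, mem_levS_iffD b]
  simp only [Set.mem_univ, forall_true_left]

theorem coeff_xsD_smul (l : Fin d) (m : M) (q : Q) (α : Fin d →₀ ℕ) :
    (b.repr (xsD K d R l • m) q).coeff α =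
      if 0 < α l then (b.repr m q).coeff (α - Finsupp.single l 1) else 0 := by
  rw [xsD_smul, map_smul, Finsupp.smul_apply, smul_eq_mul, coeff_X_mulD]

include b in
theorem regSys_of_basisD : RegSys (xsD K d R) M := by
  intro s c l m hl hc hm
  rw [mem_levS_iffD b] at hm ⊢
  intro q α hα
  have h1 := hm q (α + Finsupp.single l 1) (by
    intro l' hl'
    have : l ≠ l' := by rintro rfl; exact hl hl'
    rw [Finsupp.add_apply, Finsupp.single_eq_of_ne this.symm, add_zero]
    exact hα l' hl')
  rw [coeff_xsD_smul, if_pos, add_tsub_cancel_right] at h1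
  · exact h1
  · rw [Finsupp.add_apply, Finsupp.single_eq_same]
    omega

end Free

section MkCoord

variable {K : Type*} [CommRing K] {R : Type u} [CommRing R] [Algebra K R] {Q : Type*} [Fintype Q]
  [DecidableEq Q] {d : ℕ} {x : Fin d → R} {M : Type u} [AddCommGroup M] [Module R M]

/-- Coordinates determine the action. -/
theorem exists_coordD (θ : M →+ (Q × (Fin d → Fin 5) → K))
    (hK : ∀ (c : K) (m : M) (a : Q × (Fin d → Fin 5)), θ (algebraMap K R c • m) a = c * θ m a)
    (surj : Function.Surjective θ) (ker : ∀ m, θ m = 0 ↔ m ∈ lev x M fun _ => 5)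
    (hs : ∀ (l : Fin d) (m : M) (a : Q × (Fin d → Fin 5)), θ (x l • m) a =
      if 0 < (a.2 l).val then
        θ m (a.1, Function.update a.2 l ⟨(a.2 l).val - 1, by omega⟩) else 0) :
    ∃ C : CoordD K Q x M, C.θ = θ := by
  choose mb hmb using fun b : Q × (Fin d → Fin 5) => surj (Pi.single b 1)
  have hsmul : ∀ (r : R) (m : M) (a : Q × (Fin d → Fin 5)),
      θ (r • m) a = ∑ b, θ (r • mb b) a * θ m b := by
    intro r m a
    have h1 : θ (m - ∑ b, algebraMap K R (θ m b) • mb b) = 0 := by
      funext a'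
      rw [map_sub, map_sum, Pi.sub_apply, Finset.sum_apply, Finset.sum_eq_single a']
      · rw [hK, hmb, Pi.single_eq_same, mul_one, sub_self]
        rfl
      · intro b _ hb
        rw [hK, hmb, Pi.single_eq_of_ne hb.symm, mul_zero]
      · intro h
        exact absurd (Finset.mem_univ _) h
    have h2 : θ (r • (m - ∑ b, algebraMap K R (θ m b) • mb b)) = 0 :=
      (ker _).mpr (Submodule.smul_mem _ r ((ker _).mp h1))
    have h3 := congrFun h2 a
    rw [smul_sub, map_sub, Finset.smul_sum, map_sum, Pi.sub_apply, Finset.sum_apply,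
      Pi.zero_apply, sub_eq_zero] at h3
    rw [h3]
    refine Finset.sum_congr rfl fun b _ => ?_
    rw [smul_comm, hK, mul_comm]
  have hsingle : ∀ a b : Q × (Fin d → Fin 5), θ (mb b) a = if a = b then 1 else 0 := by
    intro a b
    rw [hmb, Pi.single_apply]
  let ρ : R →+* Matrix (Q × (Fin d → Fin 5)) (Q × (Fin d → Fin 5)) K :=
    { toFun := fun r => Matrix.of fun a b => θ (r • mb b) a
      map_one' := by
        ext a b
        rw [Matrix.of_apply, one_smul, hsingle, Matrix.one_apply]
      map_mul' := fun p q => by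
        ext a b
        rw [Matrix.of_apply, mul_smul, hsmul, Matrix.mul_apply]
        rfl
      map_zero' := by
        ext a b
        rw [Matrix.of_apply, zero_smul, map_zero]
        rfl
      map_add' := fun p q => by
        ext a b
        rw [Matrix.of_apply, add_smul, map_add]
        rfl }
  have hρ : ∀ r a b, ρ r a b = θ (r • mb b) a := fun _ _ _ => rfl
  refine ⟨⟨ρ, θ, ?_, ?_, ?_, surj, ker⟩, rfl⟩
  · intro l
    ext a b
    rw [hρ, hs]
    unfold shiftMat
    by_cases h0 : 0 < (a.2 l).val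
    · rw [if_pos h0, hsingle]
      congr 1
      rw [eq_iff_iff]
      constructor
      · intro h
        rw [← h]
        exact ⟨rfl, h0, rfl⟩
      · rintro ⟨h1, -, h2⟩
        exact Prod.ext h1 h2.symm
    · rw [if_neg h0, if_neg]
      exact fun h => h0 h.2.1
  · intro c a b
    rw [hρ, hK, hsingle]
    split_ifs
    · rw [mul_one]
    · rw [mul_zero]
  · intro r m a
    exact hsmul r m a

end MkCoord

section Free2

variable {K : Type*} [CommRing K] {d : ℕ} {R : Type u} [CommRing R] [Algebra K R]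
  [Algebra (MvPowerSeries (Fin d) K) R] [IsScalarTower K (MvPowerSeries (Fin d) K) R]
  {M : Type u} [AddCommGroup M] [Module R M]
  [Module (MvPowerSeries (Fin d) K) M] [IsScalarTower (MvPowerSeries (Fin d) K) R M]
  {Q : Type*} [Fintype Q] [DecidableEq Q] (b : Basis Q (MvPowerSeries (Fin d) K) M)

include b in
theorem exists_coordD_of_basis : ∃ C : CoordD K Q (xsD K d R) M,
    ∀ m a, C.θ m a = (b.repr m a.1).coeff (expo a.2) := by
  let θ : M →+ (Q × (Fin d → Fin 5) → K) :=
    { toFun := fun m a => (b.repr m a.1).coeff (expo a.2)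
      map_zero' := by
        funext a
        rw [map_zero, Finsupp.zero_apply, map_zero]
        rfl
      map_add' := fun m m' => by
        funext a
        rw [map_add, Finsupp.add_apply, map_add]
        rfl }
  have hθ : ∀ m a, θ m a = (b.repr m a.1).coeff (expo a.2) := fun _ _ => rfl
  suffices h : ∃ C : CoordD K Q (xsD K d R) M, C.θ = θ by
    obtain ⟨C, hC⟩ := h
    exact ⟨C, fun m a => by rw [hC]; rfl⟩
  apply exists_coordD θ
  · intro c m a
    rw [hθ, hθ, IsScalarTower.algebraMap_apply K (MvPowerSeries (Fin d) K) R, algebraMap_smul,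
      map_smul, Finsupp.smul_apply, ← MvPowerSeries.c_eq_algebraMap, smul_eq_mul,
      MvPowerSeries.coeff_C_mul]
  · intro v
    let f : Q → MvPowerSeries (Fin d) K := fun q α =>
      if h : ∀ l, α l < 5 then v (q, fun l => ⟨α l, h l⟩) else 0
    refine ⟨b.equivFun.symm f, ?_⟩
    funext a
    rw [hθ, ← b.equivFun_apply, LinearEquiv.apply_symm_apply]
    show (if h : ∀ l, expo a.2 l < 5 then v (a.1, fun l => ⟨expo a.2 l, h l⟩) else 0) = v a
    rw [dif_pos fun l => by rw [expo_apply]; exact (a.2 l).isLt]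
    rfl
  · intro m
    rw [mem_lev_iffD b]
    constructor
    · intro h q α hα
      obtain ⟨β, rfl⟩ := exists_expo hα
      exact congrFun h (q, β)
    · intro h
      funext a
      exact h a.1 (expo a.2) fun l => by rw [expo_apply]; exact (a.2 l).isLt
  · intro l m a
    rw [hθ, coeff_xsD_smul, expo_apply]
    split_ifs with h0
    · rw [hθ]
      congr 1
      congr 1
      ext l'
      rw [Finsupp.tsub_apply, expo_apply, expo_apply, update_val]
      by_cases h1 : l' = l
      · subst h1
        rw [Finsupp.single_eq_same, if_pos rfl]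
      · rw [Finsupp.single_eq_of_ne h1, if_neg h1, Nat.sub_zero]
    · rfl

end Free2

section LevQuot

variable {R : Type*} [CommRing R] {d : ℕ} (x : Fin d → R) {M N : Type*} [AddCommGroup M]
  [Module R M] [AddCommGroup N] [Module R N]

theorem levS_eq_map (f : M →ₗ[R] N) (hf : Function.Surjective f) (s : Set (Fin d))
    (c : Fin d → ℕ) : levS x N s c = (levS x M s c).map f := by
  unfold levS
  rw [Submodule.map_iSup]
  refine iSup_congr fun l => ?_
  rw [Submodule.map_iSup]
  refine iSup_congr fun _ => ?_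
  ext n
  rw [Submodule.mem_map]
  constructor
  · intro hn
    obtain ⟨w, -, rfl⟩ := Submodule.mem_smul_pointwise_iff_exists _ _ _ |>.mp hn
    obtain ⟨v, rfl⟩ := hf w
    exact ⟨_, Submodule.smul_mem_pointwise_smul v _ ⊤ trivial, map_smul f _ _⟩
  · rintro ⟨m, hm, rfl⟩
    obtain ⟨w, -, rfl⟩ := Submodule.mem_smul_pointwise_iff_exists _ _ _ |>.mp hm
    rw [map_smul]
    exact Submodule.smul_mem_pointwise_smul _ _ ⊤ trivial

theorem mk_mem_levS_iff (P : Submodule R M) (s : Set (Fin d)) (c : Fin d → ℕ) (m : M) :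
    (Submodule.Quotient.mk m : M ⧸ P) ∈ levS x (M ⧸ P) s c ↔ m ∈ levS x M s c ⊔ P := by
  rw [levS_eq_map x P.mkQ (Submodule.mkQ_surjective P), ← Submodule.mkQ_apply,
    ← Submodule.mem_comap, Submodule.comap_map_eq, Submodule.ker_mkQ]

theorem mk_mem_lev_iff (P : Submodule R M) (c : Fin d → ℕ) (m : M) :
    (Submodule.Quotient.mk m : M ⧸ P) ∈ lev x (M ⧸ P) c ↔ m ∈ lev x M c ⊔ P := by
  rw [← levS_univ, ← levS_univ, mk_mem_levS_iff]

end LevQuot

section Quot

variable {D : Type*} [CommRing D] {d : ℕ} {R : Type u} [CommRing R] [Algebra D R]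
  [Algebra (MvPowerSeries (Fin d) D) R] [IsScalarTower D (MvPowerSeries (Fin d) D) R]
  {M : Type u} [AddCommGroup M] [Module R M]
  [Module (MvPowerSeries (Fin d) D) M] [IsScalarTower (MvPowerSeries (Fin d) D) R M]
  {Q : Type*} [Fintype Q] (b : Basis Q (MvPowerSeries (Fin d) D) M) (π : D)

theorem smul_eq_C_smul (d : ℕ) {R : Type u} [CommRing R] [Algebra D R]
    [Algebra (MvPowerSeries (Fin d) D) R] [IsScalarTower D (MvPowerSeries (Fin d) D) R]
    {M : Type u} [AddCommGroup M] [Module R M]
    [Module (MvPowerSeries (Fin d) D) M] [IsScalarTower (MvPowerSeries (Fin d) D) R M]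
    (m : M) : algebraMap D R π • m =
    (MvPowerSeries.C π : MvPowerSeries (Fin d) D) • m := by
  rw [IsScalarTower.algebraMap_apply D (MvPowerSeries (Fin d) D) R, algebraMap_smul,
    ← MvPowerSeries.c_eq_algebraMap]

theorem mem_levS_sup_iff (s : Set (Fin d)) (c : Fin d → ℕ) (m : M) :
    m ∈ levS (xsD D d R) M s c ⊔ (algebraMap D R π) • (⊤ : Submodule R M) ↔
      ∀ (q : Q) (α : Fin d →₀ ℕ), (∀ l ∈ s, α l < c l) → π ∣ (b.repr m q).coeff α := by
  classical
  constructor
  · intro hm q α hα
    obtain ⟨w, hw, w', hw', rfl⟩ := Submodule.mem_sup.mp hm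
    obtain ⟨v, -, rfl⟩ := Submodule.mem_smul_pointwise_iff_exists _ _ _ |>.mp hw'
    rw [map_add, Finsupp.add_apply, map_add, (mem_levS_iffD b s c w).mp hw q α hα, zero_add,
      smul_eq_C_smul π d, map_smul, Finsupp.smul_apply, smul_eq_mul, MvPowerSeries.coeff_C_mul]
    exact Dvd.intro _ rfl
  · intro h
    have h1 : ∀ (q : Q) (α : Fin d →₀ ℕ), ∃ e : D, (∀ l ∈ s, α l < c l) →
        (b.repr m q).coeff α = π * e := by
      intro q α
      by_cases hα : ∀ l ∈ s, α l < c l
      · obtain ⟨e, he⟩ := h q α hα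
        exact ⟨e, fun _ => he⟩
      · exact ⟨0, fun h => absurd h hα⟩
    choose e he using h1
    let g : Q → MvPowerSeries (Fin d) D := fun q α => e q α
    have hg : ∀ q α, (g q).coeff α = e q α := fun _ _ => rfl
    let m' : M := b.equivFun.symm g
    have hm' : ∀ q, b.repr m' q = g q := by
      intro q
      rw [← b.equivFun_apply, LinearEquiv.apply_symm_apply]
    have h2 : m = (m - algebraMap D R π • m') + algebraMap D R π • m' := by abel
    rw [h2]
    refine Submodule.add_mem_sup ?_ (Submodule.smul_mem_pointwise_smul _ _ ⊤ trivial)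
    rw [mem_levS_iffD b]
    intro q α hα
    rw [map_sub, Finsupp.sub_apply, map_sub, smul_eq_C_smul π d, map_smul, Finsupp.smul_apply,
      smul_eq_mul, MvPowerSeries.coeff_C_mul, hm', hg, ← he q α hα, sub_self]

include b in
theorem regSys_quotD : RegSys (xsD D d R) (QuotSMulTop (algebraMap D R π) M) := by
  intro s c l m hl hc hm
  obtain ⟨m, rfl⟩ := Submodule.Quotient.mk_surjective _ m
  rw [← Submodule.Quotient.mk_smul, mk_mem_levS_iff, mem_levS_sup_iff b] at hm
  rw [mk_mem_levS_iff, mem_levS_sup_iff b]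
  intro q α hα
  have h1 := hm q (α + Finsupp.single l 1) (by
    intro l' hl'
    have : l ≠ l' := by rintro rfl; exact hl hl'
    rw [Finsupp.add_apply, Finsupp.single_eq_of_ne this.symm, add_zero]
    exact hα l' hl')
  rw [coeff_xsD_smul, if_pos, add_tsub_cancel_right] at h1
  · exact h1
  · rw [Finsupp.add_apply, Finsupp.single_eq_same]
    omega

end Quot

section Red

variable {K : Type*} [CommRing K] {D : Type*} [CommRing D] [Algebra K D] {R : Type u} [CommRing R]
  [Algebra K R] [Algebra D R] [IsScalarTower K D R] {Q : Type*} [Fintype Q]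
  [DecidableEq Q] {d : ℕ} {x : Fin d → R} {M : Type u} [AddCommGroup M] [Module R M]

/-- The reduction of coordinates. -/
theorem CoordD.exists_red (C : CoordD D Q x M) (p : D →ₐ[K] K) (π : D)
    (hp : ∀ c, p c = 0 ↔ π ∣ c) :
    ∃ C' : CoordD K Q x (QuotSMulTop (algebraMap D R π) M),
      (∀ r a b, C'.ρ r a b = p (C.ρ r a b)) ∧
      ∀ m a, C'.θ (Submodule.Quotient.mk m) a = p (C.θ m a) := by
  have hpK : ∀ c : K, p (algebraMap K D c) = c := fun c => AlgHom.commutes p c
  let ρ : R →+* Matrix (Q × (Fin d → Fin 5)) (Q × (Fin d → Fin 5)) K :=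
    (RingHom.mapMatrix p.toRingHom).comp C.ρ
  have hρ : ∀ r a b, ρ r a b = p (C.ρ r a b) := fun _ _ _ => rfl
  let θ₀ : M →ₗ[R] Tw ρ K :=
    { toFun := fun m a => p (C.θ m a)
      map_add' := fun m m' => by
        apply Tw.ext
        intro a
        show p (C.θ (m + m') a) = p (C.θ m a) + p (C.θ m' a)
        rw [map_add, Pi.add_apply, map_add]
      map_smul' := fun r m => by
        apply Tw.ext
        intro a
        show p (C.θ (r • m) a) = ∑ b, p (C.ρ r a b) * p (C.θ m b)
        rw [C.smul, map_sum]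
        simp only [map_mul] }
  have hθ₀ : ∀ m a, θ₀ m a = p (C.θ m a) := fun _ _ => rfl
  have hπ : ∀ (m : M) a, C.θ (algebraMap D R π • m) a = π * C.θ m a := by
    intro m a
    rw [C.smul, Finset.sum_eq_single a]
    · rw [C.scalar, if_pos rfl]
    · intro b' _ hb'
      rw [C.scalar, if_neg (Ne.symm hb'), zero_mul]
    · intro h
      exact absurd (Finset.mem_univ _) h
  have hle : (algebraMap D R π • ⊤ : Submodule R M) ≤ LinearMap.ker θ₀ := by
    intro m hm
    obtain ⟨w, -, rfl⟩ := Submodule.mem_smul_pointwise_iff_exists _ _ _ |>.mp hm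
    rw [LinearMap.mem_ker]
    apply Tw.ext
    intro a
    rw [hθ₀, hπ, Tw.zero_apply, hp]
    exact Dvd.intro _ rfl
  let θ : QuotSMulTop (algebraMap D R π) M →ₗ[R] Tw ρ K := Submodule.liftQ _ θ₀ hle
  have hθ : ∀ m a, θ (Submodule.Quotient.mk m) a = p (C.θ m a) := fun _ _ => rfl
  refine ⟨⟨ρ, θ.toAddMonoidHom, ?_, ?_, ?_, ?_, ?_⟩, hρ, hθ⟩
  · intro l
    ext a b
    rw [hρ, C.shift]
    unfold shiftMat
    split_ifs
    · exact map_one p
    · exact map_zero p
  · intro c a b
    rw [hρ, IsScalarTower.algebraMap_apply K D R, C.scalar]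
    split_ifs
    · exact hpK c
    · exact map_zero p
  · intro r m a
    have h1 : θ (r • m) = r • θ m := map_smul θ r m
    exact congrFun h1 a
  · intro v
    obtain ⟨m, hm⟩ := C.surj fun a => algebraMap K D (v a)
    refine ⟨Submodule.Quotient.mk m, ?_⟩
    funext a
    show θ (Submodule.Quotient.mk m) a = v a
    rw [hθ, hm, hpK]
  · intro m
    obtain ⟨m, rfl⟩ := Submodule.Quotient.mk_surjective _ m
    rw [mk_mem_lev_iff]
    constructor
    · intro h
      have h1 : ∀ a, ∃ e, C.θ m a = π * e := by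
        intro a
        have h2 : θ (Submodule.Quotient.mk m) a = 0 := congrFun h a
        rw [hθ, hp] at h2
        exact h2
      choose e he using h1
      obtain ⟨m', hm'⟩ := C.surj e
      have h2 : m = (m - algebraMap D R π • m') + algebraMap D R π • m' := by abel
      rw [h2]
      refine Submodule.add_mem_sup ?_ (Submodule.smul_mem_pointwise_smul _ _ ⊤ trivial)
      rw [← C.ker]
      funext a
      rw [map_sub, Pi.sub_apply, hπ, hm', he a, sub_self]
      rfl
    · intro h
      obtain ⟨w, hw, w', hw', rfl⟩ := Submodule.mem_sup.mp h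
      funext a
      show θ (Submodule.Quotient.mk (w + w')) a = 0
      have h1 := hle hw'
      rw [LinearMap.mem_ker] at h1
      have h2 : p (C.θ w' a) = 0 := by
        rw [← hθ₀, h1]
        rfl
      rw [hθ, map_add, Pi.add_apply, map_add, h2, add_zero, (C.ker w).mpr hw, Pi.zero_apply,
        map_zero]

end Red

end Pool.Agent.Lib.MP_682396_ag
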