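import Mathlib

/-!
# Simultaneous similarity over a field extension
-/

set_option autoImplicit false
set_option linter.unusedSectionVars false

namespace Pool.Agent.Lib.MP_682396_ag

/-- Simultaneous similarity descends along extensions of an infinite field. -/
theorem exists_descent {k Ω : Type*} [Field k] [Infinite k] [Field Ω] (φ : k →+* Ω) {n : Type*}
    [Fintype n] [DecidableEq n] {ι : Type*} (F G : ι → Matrix n n k) (g : Matrix n n Ω)
    (hdet : g.det ≠ 0) (h : ∀ i, (F i).map φ * g = g * (G i).map φ) :
    ∃ g' : Matrix n n k, g'.det ≠ 0 ∧ ∀ i, F i * g' = g' * G i := by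
  classical
  let _ : Algebra k Ω := φ.toAlgebra
  have hφ : ∀ c : k, φ c = algebraMap k Ω c := fun _ => rfl
  let b := Module.Basis.ofVectorSpace k Ω
  let J := Module.Basis.ofVectorSpaceIndex k Ω
  let s : Finset J := Finset.univ.biUnion fun i : n × n => (b.repr (g i.1 i.2)).support
  let gj : J → Matrix n n k := fun j => Matrix.of fun a c => b.repr (g a c) j
  have hgj : ∀ j a c, gj j a c = b.repr (g a c) j := fun _ _ _ => rfl
  have hsum : ∀ a c, g a c = ∑ j ∈ s, φ (gj j a c) * b j := by
    intro a c
    conv_lhs => rw [← b.linearCombination_repr (g a c)]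
    rw [Finsupp.linearCombination_apply, Finsupp.sum_of_support_subset (s := s)]
    · refine Finset.sum_congr rfl fun j _ => ?_
      rw [hφ, ← Algebra.smul_def]
      rfl
    · intro j hj
      exact Finset.mem_biUnion.mpr ⟨(a, c), Finset.mem_univ _, hj⟩
    · intro j _
      rw [zero_smul]
  have hint : ∀ i j, F i * gj j = gj j * G i := by
    intro i j
    ext a c
    have h1 := congrFun (congrFun (h i) a) c
    rw [Matrix.mul_apply, Matrix.mul_apply] at h1
    have h2 := congrArg (fun y => b.repr y j) h1
    simp only [map_sum, Finsupp.coe_finset_sum, Finset.sum_apply, Matrix.map_apply] at h2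
    rw [Matrix.mul_apply, Matrix.mul_apply]
    calc ∑ t, F i a t * gj j t c = ∑ t, b.repr (φ (F i a t) * g t c) j := by
          refine Finset.sum_congr rfl fun t _ => ?_
          rw [hφ, ← Algebra.smul_def, map_smul, Finsupp.smul_apply, smul_eq_mul, hgj]
      _ = ∑ t, b.repr (g a t * φ (G i t c)) j := h2
      _ = ∑ t, gj j a t * G i t c := by
          refine Finset.sum_congr rfl fun t _ => ?_
          rw [mul_comm, hφ, ← Algebra.smul_def, map_smul, Finsupp.smul_apply, smul_eq_mul, hgj,
            mul_comm]
  -- the generic determinant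
  let P : Matrix n n (MvPolynomial J k) := Matrix.of fun a c =>
    ∑ j ∈ s, MvPolynomial.C (gj j a c) * MvPolynomial.X j
  have hP1 : (MvPolynomial.aeval (fun j => b j) P.det : Ω) = g.det := by
    rw [AlgHom.map_det]
    congr 1
    ext a c
    rw [AlgHom.mapMatrix_apply, Matrix.map_apply]
    show MvPolynomial.aeval (fun j => b j) (∑ j ∈ s, MvPolynomial.C (gj j a c) *
      MvPolynomial.X j) = _
    rw [map_sum, hsum a c]
    refine Finset.sum_congr rfl fun j _ => ?_
    rw [map_mul, MvPolynomial.aeval_C, MvPolynomial.aeval_X]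
    rfl
  have hP0 : P.det ≠ 0 := by
    intro h0
    rw [h0, map_zero] at hP1
    exact hdet hP1.symm
  obtain ⟨y, hy⟩ : ∃ y : J → k, MvPolynomial.eval y P.det ≠ 0 := by
    by_contra hcon
    push Not at hcon
    apply hP0
    apply MvPolynomial.funext
    intro y
    rw [hcon y, map_zero]
  refine ⟨Matrix.of fun a c => ∑ j ∈ s, gj j a c * y j, ?_, ?_⟩
  · have h1 : MvPolynomial.eval y P.det =
        (Matrix.of fun a c => ∑ j ∈ s, gj j a c * y j : Matrix n n k).det := by
      rw [RingHom.map_det]
      congr 1
      ext a c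
      rw [RingHom.mapMatrix_apply, Matrix.map_apply]
      show MvPolynomial.eval y (∑ j ∈ s, MvPolynomial.C (gj j a c) * MvPolynomial.X j) = _
      rw [map_sum]
      refine Finset.sum_congr rfl fun j _ => ?_
      rw [map_mul, MvPolynomial.eval_C, MvPolynomial.eval_X]
    rw [← h1]
    exact hy
  · intro i
    ext a c
    have h1 : ∀ j, ∑ t, F i a t * gj j t c = ∑ t, gj j a t * G i t c := by
      intro j
      have := congrFun (congrFun (hint i j) a) c
      rwa [Matrix.mul_apply, Matrix.mul_apply] at this
    rw [Matrix.mul_apply, Matrix.mul_apply]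
    simp only [Matrix.of_apply, Finset.mul_sum, Finset.sum_mul]
    rw [Finset.sum_comm]
    conv_rhs => rw [Finset.sum_comm]
    refine Finset.sum_congr rfl fun j _ => ?_
    have h2 := congrArg (fun z => z * y j) (h1 j)
    simp only [Finset.sum_mul] at h2
    calc _ = ∑ t, F i a t * gj j t c * y j := Finset.sum_congr rfl fun t _ => by ring
      _ = ∑ t, gj j a t * G i t c * y j := h2
      _ = _ := Finset.sum_congr rfl fun t _ => by ring

end Pool.Agent.Lib.MP_682396_ag
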