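import Pool.Agent.Lib.MP_682396_ag.Noether

/-!
# Extension of homomorphisms with values in filtered coefficient modules
-/

set_option autoImplicit false
set_option linter.unusedSectionVars false

open Module IsLocalRing
open scoped Pointwise

universe u v

namespace Pool.Agent.Lib.MP_682396_ag

open Tw

section Ext

variable {R Λ Q : Type*} [CommRing R] [CommRing Λ] [Fintype Q] [DecidableEq Q] {d : ℕ}
  (ρ : R →+* Matrix (Q × (Fin d → Fin 5)) (Q × (Fin d → Fin 5)) Λ) (x : Fin d → R) {m : ℕ}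
  (Ω : Submodule R (Fin m → R))

/-- Extension from the fourth to the third level. -/
def Ext43 (W : Type*) [AddCommGroup W] [Module Λ W] : Prop :=
  ExtV Ω (Tw ρ W) (lev x (Tw ρ W) fun _ => 4) (lev x (Tw ρ W) fun _ => 3)
    (lev_anti fun _ => by norm_num)

/-- Extension from the third to the second level. -/
def Ext32 (W : Type*) [AddCommGroup W] [Module Λ W] : Prop :=
  ExtV Ω (Tw ρ W) (lev x (Tw ρ W) fun _ => 3) (lev x (Tw ρ W) fun _ => 2)
    (lev_anti fun _ => by norm_num)

variable {ρ x Ω}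

theorem ext32_of_subsingleton (W : Type*) [AddCommGroup W] [Module Λ W] [Subsingleton W] :
    Ext32 ρ x Ω W := by
  intro g
  have hs' : Subsingleton (Tw ρ W ⧸ lev x (Tw ρ W) fun _ => 2) := by
    have : Subsingleton (Tw ρ W) := ⟨fun a b => Tw.ext fun _ => Subsingleton.elim _ _⟩
    exact (Submodule.Quotient.mk_surjective _).subsingleton
  exact ⟨0, fun ω => Subsingleton.elim _ _⟩

theorem Ext32.equiv (hx : ∀ l, ρ (x l) = shiftMat Λ Q l) {W W' : Type*} [AddCommGroup W] [Module Λ W]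
    [AddCommGroup W'] [Module Λ W'] (e : W ≃ₗ[Λ] W') (h : Ext32 ρ x Ω W) : Ext32 ρ x Ω W' :=
  ExtV.transfer (map ρ e.toLinearMap) (map_surjective e.surjective)
    (comap_lev_map hx e.toLinearMap e.injective _) (comap_lev_map hx e.toLinearMap e.injective _)
    _ _ h

theorem Ext32.of_exact (hx : ∀ l, ρ (x l) = shiftMat Λ Q l) (hΩ : ∀ l, StabAnn (x l) Ω)
    {W' W W₀ : Type*} [AddCommGroup W'] [Module Λ W'] [AddCommGroup W] [Module Λ W]
    [AddCommGroup W₀] [Module Λ W₀] (i : W' →ₗ[Λ] W) (hi : Function.Injective i)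
    (p : W →ₗ[Λ] W₀) (hp : Function.Surjective p) (hex : LinearMap.range i = LinearMap.ker p)
    (h' : Ext32 ρ x Ω W') (h₀ : Ext43 ρ x Ω W₀) : Ext32 ρ x Ω W :=
  extV_step hx hΩ p hp h₀ (h'.equiv hx ((LinearEquiv.ofInjective i hi).trans
    (LinearEquiv.ofEq _ _ hex)))

end Ext

section Basis

variable {D T : Type*} [CommRing D] [CommRing T] [Algebra D T] (ε : T →ₐ[D] D)
  {R Q : Type*} [CommRing R] [Fintype Q] [DecidableEq Q] {d : ℕ}
  {ρ : R →+* Matrix (Q × (Fin d → Fin 5)) (Q × (Fin d → Fin 5)) T} {x : Fin d → R} {m : ℕ}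
  {Ω : Submodule R (Fin m → R)}

theorem smul_eq_of_kill {W : Type*} [AddCommGroup W] [Module T W] [Module D W] [IsScalarTower D T W]
    (hkill : ∀ p ∈ RingHom.ker ε, ∀ w : W, p • w = 0) (t : T) (w : W) : t • w = ε t • w := by
  have h1 : t - algebraMap D T (ε t) ∈ RingHom.ker ε := by
    rw [RingHom.mem_ker, map_sub, sub_eq_zero]
    exact (AlgHom.commutes ε (ε t)).symm
  have h2 := hkill _ h1 w
  rw [sub_smul, sub_eq_zero, algebraMap_smul] at h2
  exact h2

theorem ext43_of_basis (hx : ∀ l, ρ (x l) = shiftMat T Q l)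
    {W : Type*} [AddCommGroup W] [Module T W] [Module D W] [IsScalarTower D T W]
    (hkill : ∀ p ∈ RingHom.ker ε, ∀ w : W, p • w = 0) {ι : Type*} [Fintype ι] (b : Basis ι D W)
    (h : Ext43 ρ x Ω (T ⧸ RingHom.ker ε)) : Ext43 ρ x Ω W := by
  let inc : ι → (T ⧸ RingHom.ker ε) →ₗ[T] W := fun k =>
    Submodule.liftQ (RingHom.ker ε) (LinearMap.toSpanSingleton T W (b k)) (by
      intro t ht
      rw [LinearMap.mem_ker, LinearMap.toSpanSingleton_apply]
      exact hkill t ht _)
  have hinc : ∀ k (t : T), inc k (Ideal.Quotient.mk _ t) = t • b k := fun k t => rfl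
  let pr : ι → W →ₗ[T] (T ⧸ RingHom.ker ε) := fun k =>
    { toFun := fun w => Ideal.Quotient.mk _ (algebraMap D T (b.repr w k))
      map_add' := fun w w' => by
        rw [map_add, Finsupp.add_apply, map_add, map_add]
      map_smul' := fun t w => by
        rw [smul_eq_of_kill ε hkill t w, map_smul, Finsupp.smul_apply, RingHom.id_apply, smul_eq_mul]
        show _ = Ideal.Quotient.mk (RingHom.ker ε) (t * algebraMap D T (b.repr w k))
        rw [Ideal.Quotient.eq, RingHom.mem_ker, map_sub, map_mul, map_mul, map_mul]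
        have h : ∀ c : D, ε (algebraMap D T c) = c := fun c => AlgHom.commutes ε c
        rw [h, h, sub_self] }
  have hpr : ∀ k w, pr k w = Ideal.Quotient.mk _ (algebraMap D T (b.repr w k)) := fun _ _ => rfl
  have hsum : ∀ w, ∑ k, inc k (pr k w) = w := by
    intro w
    conv_rhs => rw [← b.sum_repr w]
    refine Finset.sum_congr rfl fun k _ => ?_
    rw [hpr, hinc, algebraMap_smul]
  intro g
  choose H hH using fun k => h (mapLev ρ hx (fun _ => 4) (pr k) ∘ₗ g)
  refine ⟨∑ k, mapLev ρ hx (fun _ => 3) (inc k) ∘ₗ H k, fun ω => ?_⟩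
  rw [LinearMap.sum_apply]
  obtain ⟨v, hv⟩ := Submodule.Quotient.mk_surjective _ (g ω)
  have h43 : lev x (Tw ρ W) (fun _ => 4) ≤ lev x (Tw ρ W) (fun _ => 3) :=
    lev_anti fun _ => by norm_num
  have h1 : ∀ k, (mapLev ρ hx (fun _ => 3) (inc k) ∘ₗ H k) ω =
      Submodule.mkQ (lev x (Tw ρ W) (fun _ => 3)) (map ρ (inc k) (map ρ (pr k) v)) := by
    intro k
    rw [LinearMap.comp_apply, hH, LinearMap.comp_apply, ← hv]
    rfl
  simp only [h1]
  rw [← hv, ← map_sum]
  show Submodule.mkQ (lev x (Tw ρ W) (fun _ => 3)) _ = Submodule.mkQ (lev x (Tw ρ W) (fun _ => 3)) v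
  congr 1
  apply Tw.ext
  intro a
  rw [Tw.sum_apply]
  exact hsum (v a)

end Basis

end Pool.Agent.Lib.MP_682396_ag
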