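import Pool.Agent.Lib.MP_682396_ag.Noether

/-!
# Symbolic powers of a prime of a Noetherian domain
-/

set_option autoImplicit false
set_option linter.unusedSectionVars false

open Module IsLocalRing
open scoped Pointwise

universe u v

namespace Pool.Agent.Lib.MP_682396_ag

section Symb

variable {T : Type*} [CommRing T] (P : Ideal T) [hP : P.IsPrime]

/-- The symbolic power with exponent `e + 1`. -/
def symb (e : ℕ) : Ideal T :=
  (maximalIdeal (Localization.AtPrime P) ^ (e + 1)).comap (algebraMap T (Localization.AtPrime P))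

theorem mem_symb {e : ℕ} {a : T} : a ∈ symb P e ↔
    algebraMap T (Localization.AtPrime P) a ∈ maximalIdeal (Localization.AtPrime P) ^ (e + 1) :=
  Iff.rfl

theorem symb_zero : symb P 0 = P := by
  rw [symb, zero_add, pow_one]
  exact IsLocalization.AtPrime.under_maximalIdeal (Localization.AtPrime P) P

theorem symb_anti : Antitone (symb P) := fun _ _ hab =>
  Ideal.comap_mono (Ideal.pow_le_pow_right (Nat.succ_le_succ hab))

theorem symb_le {i j : ℕ} (h : i ≤ j) : symb P j ≤ symb P i := symb_anti P h

theorem mul_mem_symb {e : ℕ} {p a : T} (hp : p ∈ P) (ha : a ∈ symb P e) : p * a ∈ symb P (e + 1) := by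
  rw [mem_symb] at ha ⊢
  rw [map_mul, pow_succ']
  refine Ideal.mul_mem_mul ?_ ha
  rw [← Localization.AtPrime.map_eq_maximalIdeal]
  exact Ideal.mem_map_of_mem _ hp

theorem mem_symb_of_mul {e : ℕ} {s a : T} (hs : s ∉ P) (ha : s * a ∈ symb P e) : a ∈ symb P e := by
  rw [mem_symb] at ha ⊢
  rw [map_mul] at ha
  have h1 : IsUnit (algebraMap T (Localization.AtPrime P) s) :=
    IsLocalization.map_units (Localization.AtPrime P) (⟨s, hs⟩ : P.primeCompl)
  exact (Ideal.unit_mul_mem_iff_mem _ h1).mp ha

theorem eq_zero_of_forall_mem_symb [IsDomain T] [IsNoetherianRing T] {a : T}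
    (h : ∀ e, a ∈ symb P e) : a = 0 := by
  have hle : P.primeCompl ≤ nonZeroDivisors T := P.primeCompl_le_nonZeroDivisors
  have hinj : Function.Injective (algebraMap T (Localization.AtPrime P)) :=
    IsLocalization.injective _ hle
  have _ : IsDomain (Localization.AtPrime P) := IsLocalization.isDomain_localization hle
  have h1 : algebraMap T (Localization.AtPrime P) a ∈
      (⨅ i : ℕ, maximalIdeal (Localization.AtPrime P) ^ i) := by
    rw [Ideal.mem_iInf]
    intro i
    exact Ideal.pow_le_pow_right (Nat.le_succ i) (h i)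
  rw [Ideal.iInf_pow_eq_bot_of_isLocalRing _ (Ideal.IsPrime.ne_top inferInstance),
    Ideal.mem_bot] at h1
  exact hinj (h1.trans (map_zero _).symm)

end Symb

end Pool.Agent.Lib.MP_682396_ag
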