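import Pool.Agent.Lib.MP_682396_ag.Curve.ExtFilt
import Pool.Agent.Lib.MP_682396_ag.Curve.SymbFilt

/-!
# Extension of homomorphisms with values in quotients by symbolic powers
-/

set_option autoImplicit false
set_option linter.unusedSectionVars false

open Module IsLocalRing
open scoped Pointwise

universe u v

namespace Pool.Agent.Lib.MP_682396_ag

open Tw

section Finite

variable {D T : Type*} [CommRing D] [CommRing T] [Algebra D T] (ε : T →ₐ[D] D)

theorem finite_of_kill {W : Type*} [AddCommGroup W] [Module T W] [Module D W] [IsScalarTower D T W]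
    [Module.Finite T W] (hkill : ∀ p ∈ RingHom.ker ε, ∀ w : W, p • w = 0) : Module.Finite D W := by
  obtain ⟨k, f, hf⟩ := Module.Finite.exists_fin' T W
  refine Module.Finite.of_surjective
    (Fintype.linearCombination D fun j : Fin k => f (Pi.single j 1)) ?_
  intro w
  obtain ⟨v, rfl⟩ := hf w
  refine ⟨fun j => ε (v j), ?_⟩
  rw [Fintype.linearCombination_apply]
  have h1 : v = ∑ j, v j • Pi.single j (1 : T) := by
    conv_lhs => rw [← Finset.univ_sum_single v]
    refine Finset.sum_congr rfl fun j _ => ?_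
    rw [← Pi.single_smul, smul_eq_mul, mul_one]
  conv_rhs => rw [h1, map_sum]
  refine Finset.sum_congr rfl fun j _ => ?_
  rw [map_smul, smul_eq_of_kill ε hkill]

end Finite

section Symb

/-- The kernel of the projection between quotients by symbolic powers. -/
abbrev Layer {T : Type*} [CommRing T] (P : Ideal T) [P.IsPrime] {i j : ℕ} (h : i ≤ j) :
    Submodule T (T ⧸ symb P j) := LinearMap.ker (Submodule.factor (symb_le P h))

variable {D T : Type*} [CommRing D] [IsDomain D] [IsPrincipalIdealRing D] [CommRing T] [IsDomain T]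
  [IsNoetherianRing T] [Algebra D T] (ε : T →ₐ[D] D)
  {R Q : Type*} [CommRing R] [Fintype Q] [DecidableEq Q] {d : ℕ}
  {ρ : R →+* Matrix (Q × (Fin d → Fin 5)) (Q × (Fin d → Fin 5)) T} {x : Fin d → R} {m : ℕ}
  {Ω : Submodule R (Fin m → R)}

theorem layer_kill [(RingHom.ker ε).IsPrime] (j : ℕ) : ∀ p ∈ RingHom.ker ε,
    ∀ w : Layer (RingHom.ker ε) (Nat.le_succ j), p • w = 0 := by
  rintro p hp ⟨w, hw⟩
  obtain ⟨a, rfl⟩ := Submodule.Quotient.mk_surjective _ w
  have ha : a ∈ symb (RingHom.ker ε) j := (Submodule.Quotient.mk_eq_zero _).mp hw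
  apply Subtype.ext
  show p • (Submodule.Quotient.mk a : T ⧸ symb (RingHom.ker ε) (j + 1)) = 0
  rw [← Submodule.Quotient.mk_smul, Submodule.Quotient.mk_eq_zero]
  exact mul_mem_symb (RingHom.ker ε) hp ha

theorem exists_basis_layer [(RingHom.ker ε).IsPrime] (j : ℕ) :
    ∃ n : ℕ, Nonempty (Basis (Fin n) D (Layer (RingHom.ker ε) (Nat.le_succ j))) := by
  have hfin : Module.Finite D (Layer (RingHom.ker ε) (Nat.le_succ j)) :=
    finite_of_kill (W := Layer (RingHom.ker ε) (Nat.le_succ j)) ε (layer_kill ε j)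
  have htf : IsTorsionFree D (Layer (RingHom.ker ε) (Nat.le_succ j)) := by
    refine ⟨fun c hc => ?_⟩
    have hc0 : c ≠ 0 := hc.ne_zero
    have hcP : algebraMap D T c ∉ RingHom.ker ε := by
      rw [RingHom.mem_ker]
      have : ε (algebraMap D T c) = c := AlgHom.commutes ε c
      rw [this]
      exact hc0
    have key : ∀ w : Layer (RingHom.ker ε) (Nat.le_succ j), c • w = 0 → w = 0 := by
      rintro ⟨w, hw⟩ h
      obtain ⟨a, rfl⟩ := Submodule.Quotient.mk_surjective _ w
      have h1 : algebraMap D T c •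
          (Submodule.Quotient.mk a : T ⧸ symb (RingHom.ker ε) (j + 1)) = 0 := by
        have h2 := congrArg Subtype.val h
        rw [algebraMap_smul]
        exact h2
      rw [← Submodule.Quotient.mk_smul, Submodule.Quotient.mk_eq_zero] at h1
      apply Subtype.ext
      show (Submodule.Quotient.mk a : T ⧸ symb (RingHom.ker ε) (j + 1)) = 0
      rw [Submodule.Quotient.mk_eq_zero]
      exact mem_symb_of_mul (RingHom.ker ε) hcP h1
    intro w w' h
    rw [← sub_eq_zero]
    apply key
    rw [smul_sub, sub_eq_zero]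
    exact h
  have hfree : Module.Free D (Layer (RingHom.ker ε) (Nat.le_succ j)) :=
    Module.free_of_finite_type_torsion_free'
  exact ⟨_, ⟨Module.finBasis D _⟩⟩

theorem factor_mk' {A N : Type*} [CommRing A] [AddCommGroup N] [Module A N] {I J : Submodule A N}
    (h : I ≤ J) (a : N) : Submodule.factor h (Submodule.Quotient.mk a) = Submodule.Quotient.mk a :=
  rfl

theorem mk_mem_layer {T : Type*} [CommRing T] (P : Ideal T) [P.IsPrime] {i j : ℕ} (h : i ≤ j)
    (a : T) : (Submodule.Quotient.mk a : T ⧸ symb P j) ∈ Layer P h ↔ a ∈ symb P i := by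
  rw [LinearMap.mem_ker, factor_mk', Submodule.Quotient.mk_eq_zero]

/-- The exact sequence of layers. -/
theorem layer_exact {T : Type*} [CommRing T] (P : Ideal T) [P.IsPrime] {j e : ℕ} (h : j + 1 ≤ e)
    (h' : j ≤ e) :
    ∃ (i : Layer P h →ₗ[T] Layer P h') (p : Layer P h' →ₗ[T] Layer P (Nat.le_succ j)),
      Function.Injective i ∧ Function.Surjective p ∧ LinearMap.range i = LinearMap.ker p := by
  have hle : Layer P h ≤ Layer P h' := by
    intro w hw
    obtain ⟨a, rfl⟩ := Submodule.Quotient.mk_surjective _ w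
    rw [mk_mem_layer] at hw ⊢
    exact symb_le P (Nat.le_succ j) hw
  have hr : ∀ w ∈ Layer P h', Submodule.factor (symb_le P h) w ∈ Layer P (Nat.le_succ j) := by
    intro w hw
    obtain ⟨a, rfl⟩ := Submodule.Quotient.mk_surjective _ w
    rw [mk_mem_layer] at hw
    rw [factor_mk', mk_mem_layer]
    exact hw
  refine ⟨Submodule.inclusion hle, LinearMap.restrict (Submodule.factor (symb_le P h)) hr,
    Submodule.inclusion_injective hle, ?_, ?_⟩
  · rintro ⟨w, hw⟩
    obtain ⟨a, rfl⟩ := Submodule.Quotient.mk_surjective _ w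
    rw [mk_mem_layer] at hw
    refine ⟨⟨Submodule.Quotient.mk a, (mk_mem_layer P h' a).mpr hw⟩, ?_⟩
    apply Subtype.ext
    rw [LinearMap.coe_restrict_apply, factor_mk']
  · ext w
    rw [Submodule.range_inclusion, Submodule.mem_comap, Submodule.subtype_apply, LinearMap.mem_ker,
      LinearMap.mem_ker, ← Subtype.coe_inj, LinearMap.coe_restrict_apply]
    rfl

theorem ext32_symb (hx : ∀ l, ρ (x l) = shiftMat T Q l) (hΩ : ∀ l, StabAnn (x l) Ω)
    [(RingHom.ker ε).IsPrime] (h : Ext43 ρ x Ω (T ⧸ RingHom.ker ε)) (k : ℕ) :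
    ∀ {j e : ℕ} (hje : j ≤ e), e = j + k → Ext32 ρ x Ω (Layer (RingHom.ker ε) hje) := by
  induction k with
  | zero =>
    intro j e hje hek
    rw [add_zero] at hek
    subst hek
    have : Subsingleton (Layer (RingHom.ker ε) hje) := by
      refine ⟨fun a b => Subtype.ext ?_⟩
      obtain ⟨a, ha⟩ := a
      obtain ⟨b, hb⟩ := b
      obtain ⟨a, rfl⟩ := Submodule.Quotient.mk_surjective _ a
      obtain ⟨b, rfl⟩ := Submodule.Quotient.mk_surjective _ b
      have ha' : (Submodule.Quotient.mk a : T ⧸ symb (RingHom.ker ε) e) = 0 := ha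
      have hb' : (Submodule.Quotient.mk b : T ⧸ symb (RingHom.ker ε) e) = 0 := hb
      exact ha'.trans hb'.symm
    exact ext32_of_subsingleton _
  | succ k ih =>
    intro j e hje hek
    have hje' : j + 1 ≤ e := by omega
    obtain ⟨i, p, hi, hp, hex⟩ := layer_exact (RingHom.ker ε) hje' hje
    obtain ⟨n, ⟨b⟩⟩ := exists_basis_layer ε j
    exact Ext32.of_exact hx hΩ i hi p hp hex (ih hje' (by omega))
      (ext43_of_basis ε hx (layer_kill ε j) b h)

end Symb

end Pool.Agent.Lib.MP_682396_ag
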