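import Pool.Agent.Lib.MP_682396_ag.Isolated

/-!
# Parameters that are uniform stable annihilators, up to a curve
-/

set_option autoImplicit false
set_option linter.unusedSectionVars false

open Module IsLocalRing RingTheory.Sequence
open scoped Pointwise

universe u v

namespace Pool.Agent.Lib.MP_682396_ag

section Dim

variable {R : Type*} [CommRing R]

theorem ringKrullDim_succ_le_of_lt {P P' : Ideal R} [P.IsPrime] (h : P ≤ P') {y : R}
    (hy : y ∉ P) (hy' : y ∈ P') : ringKrullDim (R ⧸ P') + 1 ≤ ringKrullDim (R ⧸ P) := by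
  apply ringKrullDim_succ_le_of_surjective (Ideal.Quotient.factor h)
    (Ideal.Quotient.factor_surjective h) (r := Ideal.Quotient.mk P y)
  · apply mem_nonZeroDivisors_of_ne_zero
    rw [Ne, Ideal.Quotient.eq_zero_iff_mem]
    exact hy
  · rw [Ideal.Quotient.factor_mk, Ideal.Quotient.eq_zero_iff_mem]
    exact hy'

theorem exists_avoid (I : Ideal R) (s : Finset (Ideal R)) (hs : ∀ P ∈ s, P.IsPrime)
    (hs' : ∀ P ∈ s, ¬ I ≤ P) : ∃ y ∈ I, ∀ P ∈ s, y ∉ P := by
  have h1 : ¬ ((I : Set R) ⊆ ⋃ P ∈ (s : Set (Ideal R)), (P : Set R)) := by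
    rw [Ideal.subset_union_prime (f := fun P : Ideal R => P) ⊤ ⊤ (fun P hP _ _ => hs P hP)]
    rintro ⟨P, hP, hIP⟩
    exact hs' P hP hIP
  rw [Set.not_subset] at h1
  obtain ⟨y, hyI, hy⟩ := h1
  simp only [Set.mem_iUnion, not_exists] at hy
  exact ⟨y, hyI, fun P hP h => hy P hP h⟩

variable [IsNoetherianRing R] [IsLocalRing R]

/-- Sequences in an ideal cutting down the dimension as long as possible. -/
theorem exists_dimSeq {d : ℕ} (hd : ringKrullDim R ≤ ((d + 1 : ℕ) : WithBot ℕ∞)) (J : Ideal R)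
    (hJ : ∀ P : Ideal R, P.IsPrime → J ≤ P → ringKrullDim (R ⧸ P) ≤ 1) (k : ℕ) (hk : k ≤ d) :
    ∃ ys : List R, ys.length = k ∧ (∀ y ∈ ys, y ∈ J ⊓ maximalIdeal R) ∧
      ∀ P ∈ (Ideal.ofList ys).minimalPrimes,
        ringKrullDim (R ⧸ P) + (k : WithBot ℕ∞) ≤ ((d + 1 : ℕ) : WithBot ℕ∞) := by
  classical
  induction k with
  | zero =>
    refine ⟨[], rfl, by simp, fun P _ => ?_⟩
    rw [Nat.cast_zero, add_zero]
    exact (ringKrullDim_quotient_le P).trans hd
  | succ k ih =>
    obtain ⟨ys, hlen, hmem, hdim⟩ := ih (by omega)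
    have hfin : (Ideal.ofList ys).minimalPrimes.Finite :=
      Ideal.finite_minimalPrimes_of_isNoetherianRing R _
    let s : Finset (Ideal R) := hfin.toFinset.filter fun P => ¬ J ⊓ maximalIdeal R ≤ P
    obtain ⟨y, hy, hys⟩ := exists_avoid (J ⊓ maximalIdeal R) s
      (fun P hP => (hfin.mem_toFinset.mp (Finset.mem_filter.mp hP).1).1.1)
      (fun P hP => (Finset.mem_filter.mp hP).2)
    refine ⟨y :: ys, by rw [List.length_cons, hlen], ?_, ?_⟩
    · intro z hz
      rcases List.mem_cons.mp hz with rfl | h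
      · exact hy
      · exact hmem z h
    · intro P' hP'
      have hP'p : P'.IsPrime := hP'.1.1
      have hPle := hP'.1.2
      rw [Ideal.ofList_cons] at hPle
      obtain ⟨P, hP, hPP'⟩ := Ideal.exists_minimalPrimes_le (le_sup_right.trans hPle)
      have hyP' : y ∈ P' := hPle (Ideal.mem_sup_left (Ideal.mem_span_singleton_self y))
      have hPp : P.IsPrime := hP.1.1
      by_cases hyP : y ∈ P
      · -- then the quotient has dimension at most one
        have h1 : J ⊓ maximalIdeal R ≤ P := by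
          by_contra h
          exact hys P (Finset.mem_filter.mpr ⟨hfin.mem_toFinset.mpr hP, h⟩) hyP
        have h2 : ringKrullDim (R ⧸ P) ≤ 1 := by
          rcases hPp.inf_le.mp h1 with h | h
          · exact hJ P hPp h
          · have h3 : maximalIdeal R = P := (maximalIdeal.isMaximal R).eq_of_le hPp.ne_top h
            have hm : P.IsMaximal := h3 ▸ maximalIdeal.isMaximal R
            let _ : Field (R ⧸ P) := Ideal.Quotient.field P
            rw [ringKrullDim_eq_zero_of_field]
            exact zero_le_one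
        have h3 : ringKrullDim (R ⧸ P') ≤ 1 :=
          (ringKrullDim_le_of_surjective (Ideal.Quotient.factor hPP')
            (Ideal.Quotient.factor_surjective hPP')).trans h2
        calc ringKrullDim (R ⧸ P') + ((k + 1 : ℕ) : WithBot ℕ∞) ≤ 1 + ((k + 1 : ℕ) : WithBot ℕ∞) := by
              gcongr
          _ = ((1 + (k + 1) : ℕ) : WithBot ℕ∞) := by push_cast; rfl
          _ ≤ ((d + 1 : ℕ) : WithBot ℕ∞) := by exact_mod_cast (by omega : 1 + (k + 1) ≤ d + 1)
      · have h1 := ringKrullDim_succ_le_of_lt hPP' hyP hyP'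
        calc ringKrullDim (R ⧸ P') + ((k + 1 : ℕ) : WithBot ℕ∞) =
              (ringKrullDim (R ⧸ P') + 1) + (k : WithBot ℕ∞) := by
              push_cast
              rw [add_assoc, add_comm (1 : WithBot ℕ∞)]
          _ ≤ ringKrullDim (R ⧸ P) + (k : WithBot ℕ∞) := by gcongr
          _ ≤ _ := hdim P hP

/-- Adding one general element gives a system of parameters. -/
theorem exists_last {ys : List R}
    (hdim : ∀ P ∈ (Ideal.ofList ys).minimalPrimes, ringKrullDim (R ⧸ P) ≤ 1) :
    ∃ f ∈ maximalIdeal R, maximalIdeal R ≤ (Ideal.ofList ys ⊔ Ideal.span {f}).radical := by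
  classical
  have hfin : (Ideal.ofList ys).minimalPrimes.Finite :=
    Ideal.finite_minimalPrimes_of_isNoetherianRing R _
  let s : Finset (Ideal R) := hfin.toFinset.filter fun P => ¬ maximalIdeal R ≤ P
  obtain ⟨f, hf, hfs⟩ := exists_avoid (maximalIdeal R) s
      (fun P hP => (hfin.mem_toFinset.mp (Finset.mem_filter.mp hP).1).1.1)
      (fun P hP => (Finset.mem_filter.mp hP).2)
  refine ⟨f, hf, ?_⟩
  rw [Ideal.radical_eq_sInf]
  refine le_sInf ?_
  rintro P' ⟨hP', hP'p⟩
  obtain ⟨P, hP, hPP'⟩ := Ideal.exists_minimalPrimes_le (le_sup_left.trans hP')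
  have hPp : P.IsPrime := hP.1.1
  by_cases h : maximalIdeal R ≤ P
  · exact h.trans hPP'
  · have hfP : f ∉ P := hfs P (Finset.mem_filter.mpr ⟨hfin.mem_toFinset.mpr hP, h⟩)
    have hfP' : f ∈ P' := hP' (Ideal.mem_sup_right (Ideal.mem_span_singleton_self f))
    have h1 := (ringKrullDim_succ_le_of_lt hPP' hfP hfP').trans (hdim P hP)
    have h2 : ringKrullDim (R ⧸ P') ≤ 0 := by
      have h3 : ringKrullDim (R ⧸ P') + 1 ≤ (0 : WithBot ℕ∞) + 1 := by
        rw [zero_add]
        exact h1
      exact ENat.WithBot.add_le_add_one_right_iff.mp h3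
    have h4 : Ring.KrullDimLE 0 (R ⧸ P') := by
      rw [Ring.krullDimLE_iff]
      exact h2
    have h5 : IsField (R ⧸ P') := Ring.KrullDimLE.isField_of_isDomain
    have h6 : P'.IsMaximal := Ideal.Quotient.maximal_of_isField P' h5
    exact (IsLocalRing.eq_maximalIdeal h6).ge

end Dim

section Params

variable {R : Type u} [CommRing R] [IsNoetherianRing R] [IsLocalRing R]
  [IsAdicComplete (maximalIdeal R) R]

/-- If the singular locus has dimension at most one, all but one member of a suitable system of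
parameters are uniform stable annihilators. -/
theorem exists_params_curve [CharZero (ResidueField R)] {d : ℕ}
    (hd : (maximalIdeal R).height = (d + 1 : ℕ))
    (hsing : ∀ (p : Ideal R) [p.IsPrime], ¬ IsRegularLocalRing (Localization.AtPrime p) →
      ringKrullDim (R ⧸ p) ≤ 1) :
    ∃ (x : Fin d → R) (f : R), (∀ l, x l ∈ maximalIdeal R) ∧ f ∈ maximalIdeal R ∧
      maximalIdeal R ≤ (Ideal.span (Set.range x) ⊔ Ideal.span {f}).radical ∧
      ∀ (M : Type u) [AddCommGroup M] [Module R M] [Module.Finite R M],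
        HasDepth R (d + 1) M → ∀ l, StabAnn (x l) M := by
  let J : Ideal R :=
    { carrier := {z | ∀ (M : Type u) [AddCommGroup M] [Module R M] [Module.Finite R M],
        HasDepth R (d + 1) M → StabAnn z M}
      zero_mem' := fun M _ _ _ _ => StabAnn.zero
      add_mem' := fun {a b} ha hb M _ _ _ hM => (ha M hM).add (hb M hM)
      smul_mem' := fun c z hz M _ _ _ hM => (hz M hM).smul c }
  have hJ : ∀ P : Ideal R, P.IsPrime → J ≤ P → ringKrullDim (R ⧸ P) ≤ 1 := by
    intro P hP hJP
    apply hsing P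
    intro hreg
    obtain ⟨z, hz, hM⟩ := exists_stabAnn_notMem P hd
    exact hz (hJP hM)
  have hdim : ringKrullDim R ≤ ((d + 1 : ℕ) : WithBot ℕ∞) := by
    rw [← IsLocalRing.maximalIdeal_height_eq_ringKrullDim, hd]
    exact le_rfl
  obtain ⟨ys, hlen, hmem, hys⟩ := exists_dimSeq hdim J hJ d le_rfl
  obtain ⟨f, hf, hrad⟩ := exists_last (ys := ys) (by
    intro P hP
    have h1 := hys P hP
    have h2 : ringKrullDim (R ⧸ P) + (d : WithBot ℕ∞) ≤ 1 + (d : WithBot ℕ∞) := by
      refine h1.trans (le_of_eq ?_)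
      push_cast
      rw [add_comm]
    exact ENat.WithBot.add_le_add_natCast_right_iff.mp h2)
  refine ⟨fun l => ys.get (Fin.cast hlen.symm l), f, ?_, hf, ?_, ?_⟩
  · intro l
    exact (hmem _ (List.get_mem ys (Fin.cast hlen.symm l))).2
  · have hrange : Set.range (fun l : Fin d => ys.get (Fin.cast hlen.symm l)) =
        {t | t ∈ ys} := by
      ext t
      rw [Set.mem_range, Set.mem_ofPred_eq, List.mem_iff_get]
      constructor
      · rintro ⟨l, hl⟩
        exact ⟨_, hl⟩
      · rintro ⟨l, hl'⟩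
        exact ⟨Fin.cast hlen l, hl'⟩
    rw [hrange]
    exact hrad
  · intro M _ _ _ hM l
    exact (hmem _ (List.get_mem ys (Fin.cast hlen.symm l))).1 M hM

end Params

end Pool.Agent.Lib.MP_682396_ag
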