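import Pool.Agent.Lib.MP_682396_ag.Curve.SeqIso
import Pool.Agent.Lib.MP_682396_ag.Curve.AlgD
import Pool.Agent.Lib.MP_682396_ag.Curve.Params

/-!
# Sequences of rigid modules over domains with singular locus of dimension at most one
-/

set_option autoImplicit false
set_option linter.unusedSectionVars false

open Module IsLocalRing RingTheory.Sequence
open scoped Pointwise

universe u v

namespace Pool.Agent.Lib.MP_682396_ag

open Tw

section Gen

variable {D : Type*} [CommRing D] [IsLocalRing D] {d : ℕ}

/-- Generators of the maximal ideal of a power series ring over a local ring with principal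
maximal ideal. -/
theorem ofList_XD {π : D} (hπ : maximalIdeal D = Ideal.span {π}) :
    Ideal.ofList ((MvPowerSeries.C π : MvPowerSeries (Fin d) D) ::
      List.ofFn fun l : Fin d => (MvPowerSeries.X l : MvPowerSeries (Fin d) D)) =
    maximalIdeal (MvPowerSeries (Fin d) D) := by
  have hπm : π ∈ maximalIdeal D := by
    rw [hπ]
    exact Ideal.mem_span_singleton_self π
  rw [Ideal.ofList_cons]
  apply le_antisymm
  · refine sup_le ?_ ?_
    · rw [Ideal.span_singleton_le_iff_mem, mem_maximalIdeal, mem_nonunits_iff,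
        MvPowerSeries.isUnit_iff_constantCoeff, MvPowerSeries.constantCoeff_C]
      exact hπm
    · rw [Ideal.ofList, Ideal.span_le]
      intro f hf
      simp only [Set.mem_ofPred_eq, List.mem_ofFn] at hf
      obtain ⟨l, rfl⟩ := hf
      rw [SetLike.mem_coe, mem_maximalIdeal, mem_nonunits_iff,
        MvPowerSeries.isUnit_iff_constantCoeff, MvPowerSeries.constantCoeff_X]
      exact not_isUnit_zero
  · intro f hf
    rw [mem_maximalIdeal, mem_nonunits_iff, MvPowerSeries.isUnit_iff_constantCoeff] at hf
    have h0 : MvPowerSeries.constantCoeff f ∈ maximalIdeal D := hf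
    rw [hπ, Ideal.mem_span_singleton] at h0
    obtain ⟨e, he⟩ := h0
    obtain ⟨g, hg⟩ := exists_decompD (Finset.univ : Finset (Fin d)) (fun _ => 1)
      (f - MvPowerSeries.C (MvPowerSeries.constantCoeff f)) (by
      intro α hα
      have h0 : α = 0 := by
        ext l
        have := hα l (Finset.mem_univ l)
        rw [Finsupp.zero_apply]
        omega
      rw [h0, map_sub, MvPowerSeries.coeff_zero_eq_constantCoeff_apply,
        MvPowerSeries.coeff_zero_eq_constantCoeff_apply, MvPowerSeries.constantCoeff_C, sub_self])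
    have h1 : f = MvPowerSeries.C (MvPowerSeries.constantCoeff f) +
        (f - MvPowerSeries.C (MvPowerSeries.constantCoeff f)) := by abel
    rw [h1]
    refine Submodule.add_mem_sup ?_ ?_
    · rw [he, map_mul]
      exact Ideal.mul_mem_right _ _ (Ideal.mem_span_singleton_self _)
    · rw [hg]
      refine Ideal.sum_mem _ fun l _ => ?_
      rw [pow_one]
      apply Ideal.mul_mem_right
      apply Ideal.subset_span
      simp only [Set.mem_ofPred_eq, List.mem_ofFn]
      exact ⟨l, rfl⟩

/-- Modules of maximal depth are free. -/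
theorem free_of_depthD {π : D} (hπ : maximalIdeal D = Ideal.span {π}) [IsNoetherianRing D]
    {R : Type u} [CommRing R] [IsNoetherianRing R] [IsLocalRing R]
    [IsAdicComplete (maximalIdeal R) R] [Algebra D R]
    [Algebra (MvPowerSeries (Fin d) D) R] [IsScalarTower D (MvPowerSeries (Fin d) D) R]
    [Module.Finite (MvPowerSeries (Fin d) D) R]
    (hx : ∀ l, xsD D d R l ∈ maximalIdeal R) (hf : algebraMap D R π ∈ maximalIdeal R)
    (hrad : maximalIdeal R ≤
      (Ideal.span (Set.range (xsD D d R)) ⊔ Ideal.span {algebraMap D R π}).radical)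
    {M : Type u} [AddCommGroup M] [Module R M] [Module.Finite R M]
    [Module (MvPowerSeries (Fin d) D) M] [IsScalarTower (MvPowerSeries (Fin d) D) R M]
    (hdepth : HasDepth R (d + 1) M) :
    Module.Finite (MvPowerSeries (Fin d) D) M ∧ Module.Free (MvPowerSeries (Fin d) D) M := by
  obtain ⟨rs, hmem, hreg, hlen⟩ := hdepth
  have hfin : Module.Finite (MvPowerSeries (Fin d) D) M := Module.Finite.trans R M
  refine ⟨hfin, ?_⟩
  have h1 : IsWeaklyRegular M (algebraMap D R π :: List.ofFn (xsD D d R)) := by
    apply isWeaklyRegular_of_sop (algebraMap D R π :: List.ofFn (xsD D d R)) M rs _ hmem hreg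
    · intro y hy
      rcases List.mem_cons.mp hy with rfl | hy
      · exact hf
      · rw [List.mem_ofFn] at hy
        obtain ⟨l, rfl⟩ := hy
        exact hx l
    · refine hrad.trans (Ideal.radical_mono ?_)
      rw [Ideal.ofList_cons, ofList_ofFn, sup_comm]
      exact le_sup_right
    · rw [hlen, List.length_cons, List.length_ofFn]
  have h2 : (algebraMap D R π :: List.ofFn (xsD D d R)) =
      ((MvPowerSeries.C π : MvPowerSeries (Fin d) D) ::
      List.ofFn fun l : Fin d => (MvPowerSeries.X l : MvPowerSeries (Fin d) D)).map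
        (algebraMap (MvPowerSeries (Fin d) D) R) := by
    rw [List.map_cons, List.map_ofFn]
    congr 1
    rw [IsScalarTower.algebraMap_apply D (MvPowerSeries (Fin d) D) R,
      ← MvPowerSeries.c_eq_algebraMap]
  rw [h2, isWeaklyRegular_map_algebraMap_iff] at h1
  exact free_of_isWeaklyRegular (d + 1) (MvPowerSeries (Fin d) D) M _
    (by rw [List.length_cons, List.length_ofFn]) (ofList_XD hπ) h1

end Gen

/-- Among infinitely many rigid modules of maximal depth and the same rank two are isomorphic,
provided that the singular locus has dimension at most one. -/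
theorem exists_iso_of_seq_curve {R : Type u} [CommRing R] [IsDomain R] [IsNoetherianRing R]
    [IsLocalRing R] [IsAdicComplete (maximalIdeal R) R] [CharZero (ResidueField R)] {d : ℕ}
    (hd : (maximalIdeal R).height = (d + 1 : ℕ))
    (hsing : ∀ (p : Ideal R) [p.IsPrime], ¬ IsRegularLocalRing (Localization.AtPrime p) →
      ringKrullDim (R ⧸ p) ≤ 1)
    (M : ℕ → Type u) [∀ i, AddCommGroup (M i)] [∀ i, Module R (M i)]
    [∀ i, Module.Finite R (M i)] [∀ i, IsTorsionFree R (M i)]
    (hdepth : ∀ i, HasDepth R (d + 1) (M i))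
    (n : ℕ) (hn : ∀ i, finrank R (M i) = n)
    (hrig : ∀ i (E : Type u) [AddCommGroup E] [Module R E] (f : M i →ₗ[R] E) (g : E →ₗ[R] M i),
      Function.Injective f → Function.Surjective g →
      LinearMap.range f = LinearMap.ker g → ∃ s : M i →ₗ[R] E, g ∘ₗ s = LinearMap.id) :
    ∃ i j, i ≠ j ∧ Nonempty (M i ≃ₗ[R] M j) := by
  obtain ⟨x, t, hx, ht, hrad, hst⟩ := exists_params_curve hd hsing
  let K := ResidueField R
  let D := PowerSeries K
  let Λ := MvPowerSeries (Fin d) D
  -- algebra structures
  obtain ⟨σ, hσ⟩ := exists_section (R := R)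
  let _ : Algebra K R := σ.toAlgebra
  have hres : ∀ r : R, ∃ c : K, r - algebraMap K R c ∈ maximalIdeal R := by
    intro r
    refine ⟨residue R r, ?_⟩
    rw [← residue_eq_zero_iff, map_sub]
    show residue R r - residue R (σ (residue R r)) = 0
    rw [hσ, sub_self]
  obtain ⟨iD, htowD, hXD⟩ := exists_algebra_eval (B := K) (maximalIdeal R) (fun _ : Unit => t)
    (fun _ => ht)
  let _ : Algebra D R := iD
  have htowD' : IsScalarTower K D R := htowD
  have hft : algebraMap D R PowerSeries.X = t := hXD ()
  obtain ⟨iΛ, htowΛ, hXΛ⟩ := exists_algebra_eval (B := D) (maximalIdeal R) x hx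
  let _ : Algebra Λ R := iΛ
  have htowΛ' : IsScalarTower D Λ R := htowΛ
  have hxs : xsD D d R = x := funext hXΛ
  have hxm : ∀ l, xsD D d R l ∈ maximalIdeal R := fun l => by rw [hxs]; exact hx l
  have hftm : algebraMap D R PowerSeries.X ∈ maximalIdeal R := by rw [hft]; exact ht
  have hπ : maximalIdeal D = Ideal.span {PowerSeries.X} := PowerSeries.maximalIdeal_eq_span_X
  have hDc : IsAdicComplete (maximalIdeal D) D := by
    rw [hπ]
    infer_instance
  have hrad' : maximalIdeal R ≤
      (Ideal.span (Set.range (xsD D d R)) ⊔ Ideal.span {algebraMap D R PowerSeries.X}).radical := by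
    rw [hxs, hft]
    exact hrad
  have hfinΛ : Module.Finite Λ R := by
    refine finite_of_finite_quotientD (B := D) (σ := Fin d) (R := R)
      (Ideal.span (Set.range (xsD D d R))) rfl ?_ ?_
    · refine finite_quotient_powerSeries hres hftm _ ?_ hrad'
      rw [Ideal.span_le]
      rintro _ ⟨l, rfl⟩
      exact hxm l
    · apply IsHausdorff.of_isLocalRing
      intro h
      have h1 : Ideal.span (Set.range (xsD D d R)) ≤ maximalIdeal R := by
        rw [Ideal.span_le]
        rintro _ ⟨l, rfl⟩
        exact hxm l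
      rw [h] at h1
      exact (maximalIdeal.isMaximal R).ne_top (top_le_iff.mp h1)
  let _ : ∀ i, Module Λ (M i) := fun i => Module.compHom (M i) (algebraMap Λ R)
  have _ : ∀ i, IsScalarTower Λ R (M i) := fun i => IsScalarTower.of_algebraMap_smul fun _ _ => rfl
  have hfree : ∀ i, Module.Finite Λ (M i) ∧ Module.Free Λ (M i) := fun i =>
    free_of_depthD hπ hxm hftm hrad' (hdepth i)
  have _ : ∀ i, Module.Finite Λ (M i) := fun i => (hfree i).1
  have _ : ∀ i, Module.Free Λ (M i) := fun i => (hfree i).2
  -- the ranks over the power series ring are bounded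
  have hbound : ∀ i, finrank Λ (M i) < finrank Λ (Fin n → R) + 1 := by
    intro i
    have h1 := exists_embedding (R := R) (M i)
    rw [hn i] at h1
    obtain ⟨f, hf⟩ := h1
    have h2 : Function.Injective (f.restrictScalars Λ) := hf
    exact Nat.lt_succ_of_le (LinearMap.finrank_le_finrank_of_injective h2)
  obtain ⟨N, hN⟩ := Finite.exists_infinite_fiber
    (fun i : ℕ => (⟨finrank Λ (M i), hbound i⟩ : Fin (finrank Λ (Fin n → R) + 1)))
  let e := Infinite.natEmbedding ((fun i : ℕ => (⟨finrank Λ (M i), hbound i⟩ :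
    Fin (finrank Λ (Fin n → R) + 1))) ⁻¹' {N})
  have he : ∀ i, finrank Λ (M (e i)) = N.val := by
    intro i
    have h1 := (e i).2
    rw [Set.mem_preimage, Set.mem_singleton_iff] at h1
    exact congrArg Fin.val h1
  let b : ∀ i, Basis (Fin N.val) Λ (M (e i)) := fun i => finBasisOfFinrankEq Λ (M (e i)) (he i)
  -- a finite spanning set modulo the fifth level
  let J5 : Ideal R := lev (xsD D d R) R fun _ => 5
  have hlevle : J5 ≤ maximalIdeal R := by
    show lev (xsD D d R) R (fun _ => 5) ≤ maximalIdeal R
    unfold lev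
    apply iSup_le
    intro l r hr
    obtain ⟨w, -, rfl⟩ := Submodule.mem_smul_pointwise_iff_exists _ _ _ |>.mp hr
    rw [smul_eq_mul]
    exact Ideal.mul_mem_right _ _ (Ideal.pow_mem_of_mem _ (hxm l) _ (by norm_num))
  have hlevrad : maximalIdeal R ≤ (J5 ⊔
      Ideal.span {algebraMap D R PowerSeries.X}).radical := by
    refine hrad'.trans ?_
    rw [Ideal.radical_le_radical_iff]
    refine sup_le ?_ (le_sup_right.trans Ideal.le_radical)
    rw [Ideal.span_le]
    rintro _ ⟨l, rfl⟩
    refine ⟨5, Ideal.mem_sup_left ?_⟩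
    have h1 := pow_smul_mem_lev (x := xsD D d R) (fun _ => 5) l (1 : R)
    rw [smul_eq_mul, mul_one] at h1
    exact h1
  have hfinJ : Module.Finite D (R ⧸ J5) :=
    finite_quotient_powerSeries hres hftm J5 hlevle hlevrad
  obtain ⟨m, f₀, hf₀⟩ := Module.Finite.exists_fin' D (R ⧸ J5)
  choose r hr using fun j : Fin m => Ideal.Quotient.mk_surjective (I := J5) (f₀ (Pi.single j 1))
  have hspan : ∀ r' : R, ∃ c : Fin m → D,
      r' - ∑ k, algebraMap D R (c k) * r k ∈ lev (xsD D d R) R fun _ => 5 := by
    intro r'
    obtain ⟨c, hc⟩ := hf₀ (Ideal.Quotient.mk J5 r')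
    refine ⟨c, ?_⟩
    show r' - ∑ k, algebraMap D R (c k) * r k ∈ J5
    rw [← Ideal.Quotient.eq, ← hc, map_sum]
    have h2 : c = ∑ j, c j • Pi.single j 1 := by
      conv_lhs => rw [← Finset.univ_sum_single c]
      refine Finset.sum_congr rfl fun j _ => ?_
      rw [← Pi.single_smul, smul_eq_mul, mul_one]
    conv_lhs => rw [h2]
    rw [map_sum]
    refine Finset.sum_congr rfl fun j _ => ?_
    rw [map_smul f₀, ← hr j, ← algebraMap_smul R]
    rfl
  let p : D →ₐ[K] K :=
    { (PowerSeries.constantCoeff : PowerSeries K →+* K) with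
      commutes' := fun c => PowerSeries.constantCoeff_C c }
  have hp : ∀ c : D, p c = 0 ↔ PowerSeries.X ∣ c := fun c => PowerSeries.X_dvd_iff.symm
  have hinf : Infinite K := inferInstance
  obtain ⟨i, j, hij, ψ, hψ⟩ := exists_surjective_seq_curve p
    (PowerSeries.X_ne_zero : (PowerSeries.X : PowerSeries K) ≠ 0) hp hxm r hspan
    (fun i => M (e i)) b (fun i l => by rw [hxs]; exact hst (M (e i)) (hdepth _) l)
    (fun i => hrig (e i))
  refine ⟨e i, e j, fun h => hij (e.injective (Subtype.ext h)), ?_⟩
  exact ⟨LinearEquiv.ofBijective ψ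
    ⟨injective_of_surjective_of_finrank_eq (by rw [hn, hn]) ψ hψ, hψ⟩⟩

end Pool.Agent.Lib.MP_682396_ag
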