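import Pool.Agent.Lib.MP_682396_ag.Noether

/-!
# Linear compactness of finite free modules over complete Noetherian local rings
-/

set_option autoImplicit false
set_option linter.unusedSectionVars false

open Module IsLocalRing
open scoped Pointwise

universe u v

namespace Pool.Agent.Lib.MP_682396_ag

section LinCompact

variable {T : Type*} [CommRing T] [IsNoetherianRing T] [IsLocalRing T]

/-- The quotient of a finite module by a power of the maximal ideal is Artinian. -/
theorem isArtinian_quot_pow (F : Type*) [AddCommGroup F] [Module T F] [Module.Finite T F] (s : ℕ) :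
    IsArtinian T (F ⧸ (maximalIdeal T ^ s • ⊤ : Submodule T F)) := by
  have h0 : IsFiniteLength T (T ⧸ maximalIdeal T ^ s) := isFiniteLength_quot_pow (maximalIdeal T) s
  have hart : IsArtinian T (T ⧸ maximalIdeal T ^ s) := (isFiniteLength_iff_isNoetherian_isArtinian.mp h0).2
  obtain ⟨k, f, hf⟩ := Module.Finite.exists_fin' T F
  let g : (Fin k → T ⧸ maximalIdeal T ^ s) →ₗ[T] (F ⧸ (maximalIdeal T ^ s • ⊤ : Submodule T F)) :=
    LinearMap.lsum T (fun _ : Fin k => T ⧸ maximalIdeal T ^ s) T fun j =>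
      Submodule.liftQ (maximalIdeal T ^ s) ((LinearMap.toSpanSingleton T _
        (Submodule.Quotient.mk (f (Pi.single j 1))))) (by
        intro t ht
        rw [LinearMap.mem_ker, LinearMap.toSpanSingleton_apply, ← Submodule.Quotient.mk_smul,
          Submodule.Quotient.mk_eq_zero]
        exact Submodule.smul_mem_smul ht trivial)
  have hg : Function.Surjective g := by
    intro q
    obtain ⟨v, rfl⟩ := Submodule.Quotient.mk_surjective _ q
    obtain ⟨c, rfl⟩ := hf v
    refine ⟨fun j => Submodule.Quotient.mk (c j), ?_⟩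
    have hgc : g (fun j => Submodule.Quotient.mk (c j)) =
        ∑ j, c j • (Submodule.Quotient.mk (f (Pi.single j 1)) :
          F ⧸ (maximalIdeal T ^ s • ⊤ : Submodule T F)) := by
      simp only [g, LinearMap.lsum_apply, LinearMap.sum_apply]
      rfl
    rw [hgc]
    have h1 : c = ∑ j, c j • Pi.single j (1 : T) := by
      conv_lhs => rw [← Finset.univ_sum_single c]
      refine Finset.sum_congr rfl fun j _ => ?_
      rw [← Pi.single_smul, smul_eq_mul, mul_one]
    conv_rhs => rw [h1]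
    rw [map_sum, ← Submodule.mkQ_apply, map_sum]
    refine Finset.sum_congr rfl fun j _ => ?_
    rw [map_smul, map_smul]
    rfl
  exact isArtinian_of_surjective _ g hg

/-- A submodule of a finite module is closed. -/
theorem mem_of_forall_mem_sup {F : Type*} [AddCommGroup F] [Module T F] [Module.Finite T F]
    (N : Submodule T F) {v : F} (h : ∀ s : ℕ, v ∈ N ⊔ (maximalIdeal T ^ s • ⊤ : Submodule T F)) :
    v ∈ N := by
  have h1 : N.mkQ v ∈ (⨅ s : ℕ, maximalIdeal T ^ s • ⊤ : Submodule T (F ⧸ N)) := by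
    rw [Submodule.mem_iInf]
    intro s
    obtain ⟨n, hn, w, hw, rfl⟩ := Submodule.mem_sup.mp (h s)
    rw [map_add]
    have h2 : N.mkQ n = 0 := by rwa [Submodule.mkQ_apply, Submodule.Quotient.mk_eq_zero]
    rw [h2, zero_add]
    have h4 : N.mkQ w ∈ (maximalIdeal T ^ s • ⊤ : Submodule T F).map N.mkQ := ⟨_, hw, rfl⟩
    rw [Submodule.map_smul''] at h4
    exact Submodule.smul_mono le_rfl le_top h4
  rw [Ideal.iInf_pow_smul_eq_bot_of_isLocalRing _ (Ideal.IsPrime.ne_top inferInstance),
    Submodule.mem_bot, Submodule.mkQ_apply, Submodule.Quotient.mk_eq_zero] at h1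
  exact h1

variable [IsAdicComplete (maximalIdeal T) T]

/-- Descending sequences of cosets have a common element. -/
theorem exists_mem_cosets {k : ℕ} (N : ℕ → Submodule T (Fin k → T)) (hN : Antitone N)
    (z : ℕ → Fin k → T) (hz : ∀ e, z (e + 1) - z e ∈ N e) :
    ∃ w : Fin k → T, ∀ e, w - z e ∈ N e := by
  have hz' : ∀ e e', e ≤ e' → z e' - z e ∈ N e := by
    intro e e' hee
    induction e', hee using Nat.le_induction with
    | base => rw [sub_self]; exact zero_mem _
    | succ e' hle ih =>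
      have h1 : z (e' + 1) - z e = (z (e' + 1) - z e') + (z e' - z e) := by abel
      rw [h1]
      exact add_mem (hN hle (hz e')) ih
  -- stabilization
  have hstab : ∀ s : ℕ, ∃ e₀ : ℕ, ∀ e, e₀ ≤ e → N e₀ ≤ N e ⊔ (maximalIdeal T ^ s • ⊤ : Submodule T _) := by
    intro s
    have hart := isArtinian_quot_pow (T := T) (Fin k → T) s
    let π := (maximalIdeal T ^ s • ⊤ : Submodule T (Fin k → T)).mkQ
    obtain ⟨e₀, he₀⟩ := IsArtinian.monotone_stabilizes (R := T)
      (⟨fun e => OrderDual.toDual ((N e).map π), fun a b hab => Submodule.map_mono (hN hab)⟩ :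
        ℕ →o (Submodule T ((Fin k → T) ⧸ (maximalIdeal T ^ s • ⊤ : Submodule T (Fin k → T))))ᵒᵈ)
    refine ⟨e₀, fun e he v hv => ?_⟩
    have h1 : π v ∈ (N e).map π := by
      have h2 : (N e₀).map π = (N e).map π := he₀ e he
      rw [← h2]
      exact ⟨v, hv, rfl⟩
    obtain ⟨n, hn, hnv⟩ := h1
    have h3 : v - n ∈ (maximalIdeal T ^ s • ⊤ : Submodule T (Fin k → T)) := by
      rw [← Submodule.Quotient.mk_eq_zero, ← Submodule.mkQ_apply, map_sub, sub_eq_zero]
      exact hnv.symm
    have h4 : v = n + (v - n) := by abel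
    rw [h4]
    exact Submodule.add_mem_sup hn h3
  choose e₀ he₀ using hstab
  -- increasing indices
  let e₁ : ℕ → ℕ := fun s => ∑ t ∈ Finset.range (s + 1), e₀ t + s
  have he₁ : ∀ s, e₀ s ≤ e₁ s := fun s =>
    (Finset.single_le_sum (f := e₀) (fun _ _ => Nat.zero_le _) (Finset.self_mem_range_succ s)).trans
      (Nat.le_add_right _ _)
  have he₁m : Monotone e₁ := monotone_nat_of_le_succ fun s => by
    show ∑ t ∈ Finset.range (s + 1), e₀ t + s ≤ ∑ t ∈ Finset.range (s + 1 + 1), e₀ t + (s + 1)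
    rw [Finset.sum_range_succ _ (s + 1)]
    omega
  have he₁s : ∀ s, s ≤ e₁ s := fun s => Nat.le_add_left _ _
  have hN₁ : ∀ s e, N (e₁ s) ≤ N e ⊔ (maximalIdeal T ^ s • ⊤ : Submodule T (Fin k → T)) := by
    intro s e
    refine (hN (he₁ s)).trans ?_
    refine (he₀ s (max e (e₀ s)) (le_max_right _ _)).trans ?_
    exact sup_le_sup_right (hN (le_max_left _ _)) _
  -- the approximating sequence
  have hstep : ∀ (s : ℕ) (w : Fin k → T), w - z (e₁ s) ∈ N (e₁ s) →
      ∃ w' : Fin k → T, w' - z (e₁ (s + 1)) ∈ N (e₁ (s + 1)) ∧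
        w' - w ∈ (maximalIdeal T ^ s • ⊤ : Submodule T (Fin k → T)) := by
    intro s w hw
    have h1 : w - z (e₁ (s + 1)) ∈ N (e₁ s) := by
      have h2 : w - z (e₁ (s + 1)) = (w - z (e₁ s)) - (z (e₁ (s + 1)) - z (e₁ s)) := by abel
      rw [h2]
      exact sub_mem hw (hz' _ _ (he₁m (Nat.le_succ s)))
    obtain ⟨n, hn, m, hm, hnm⟩ := Submodule.mem_sup.mp (hN₁ s (e₁ (s + 1)) h1)
    refine ⟨z (e₁ (s + 1)) + n, by rwa [add_sub_cancel_left], ?_⟩
    have h3 : z (e₁ (s + 1)) + n - w = -m := by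
      have h4 : w = z (e₁ (s + 1)) + (n + m) := by rw [hnm]; abel
      rw [h4]; abel
    rw [h3]
    exact neg_mem hm
  choose F hF1 hF2 using hstep
  let W : ∀ s : ℕ, {w : Fin k → T // w - z (e₁ s) ∈ N (e₁ s)} := fun s =>
    Nat.rec ⟨z (e₁ 0), by rw [sub_self]; exact zero_mem _⟩ (fun s w => ⟨F s w.1 w.2, hF1 s w.1 w.2⟩) s
  have hW : ∀ s, (W (s + 1)).1 - (W s).1 ∈ (maximalIdeal T ^ s • ⊤ : Submodule T (Fin k → T)) :=
    fun s => hF2 s (W s).1 (W s).2
  have hW' : ∀ {s t}, s ≤ t → (W s).1 ≡ (W t).1 [SMOD (maximalIdeal T ^ s • ⊤ : Submodule T (Fin k → T))] := by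
    intro s t hst
    induction t, hst using Nat.le_induction with
    | base => exact SModEq.rfl
    | succ t hle ih =>
      refine ih.trans ?_
      rw [SModEq.comm, SModEq.sub_mem]
      exact Submodule.smul_mono_left (Ideal.pow_le_pow_right hle) (hW t)
  obtain ⟨w, hw⟩ := IsPrecomplete.prec (isPrecomplete_pi (maximalIdeal T) k) hW'
  refine ⟨w, fun e => ?_⟩
  apply mem_of_forall_mem_sup
  intro s
  -- use a large index
  have h1 : w - (W (max s e)).1 ∈ (maximalIdeal T ^ s • ⊤ : Submodule T (Fin k → T)) := by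
    have h2 := hw (max s e)
    rw [SModEq.comm, SModEq.sub_mem] at h2
    exact Submodule.smul_mono_left (Ideal.pow_le_pow_right (le_max_left s e)) h2
  have h3 : z (e₁ (max s e)) - z e ∈ N e := hz' _ _ ((le_max_right s e).trans (he₁s _))
  have h4 : (W (max s e)).1 - z (e₁ (max s e)) ∈ N e := hN ((le_max_right s e).trans (he₁s _)) (W (max s e)).2
  have h5 : w - z e = (((W (max s e)).1 - z (e₁ (max s e))) + (z (e₁ (max s e)) - z e)) +
      (w - (W (max s e)).1) := by abel
  rw [h5]
  exact Submodule.add_mem_sup (add_mem h4 h3) h1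

end LinCompact

end Pool.Agent.Lib.MP_682396_ag
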