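import Pool.Agent.Lib.MP_682396_ag.Curve.CoordD
import Pool.Agent.Lib.MP_682396_ag.Curve.Compl
import Pool.Agent.Lib.MP_682396_ag.Curve.Ass
import Pool.Agent.Lib.MP_682396_ag.Curve.Desc

/-!
# Intertwiners over quotients of completions
-/

set_option autoImplicit false
set_option linter.unusedSectionVars false

open Module IsLocalRing
open scoped Pointwise

universe u v w

namespace Pool.Agent.Lib.MP_682396_ag

open Tw

section Quot

variable {D : Type*} [CommRing D] [IsDomain D] [IsPrincipalIdealRing D]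
  {A : Type*} [CommRing A] [Algebra D A] {ε : A →ₐ[D] D}
  {R : Type u} [CommRing R] [Algebra D R] {Q : Type*} [Fintype Q] [DecidableEq Q] {d : ℕ}
  {ρ : R →+* Matrix (Q × (Fin d → Fin 5)) (Q × (Fin d → Fin 5)) A} {x : Fin d → R}
  {M : Type u} [AddCommGroup M] [Module R M]
  {S : Type*} [CommRing S] [Algebra A S] [IsLocalRing S] [IsNoetherianRing S]
  [IsAdicComplete (maximalIdeal S) S]

/-- Over the quotient of the completion by a prime contained in the kernel of the evaluation the
family is constant below level two. -/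
theorem exists_intertwiner_quot (hx : ∀ l, ρ (x l) = shiftMat A Q l)
    (hρD : ∀ (c : D) (a b : Q × (Fin d → Fin 5)), ρ (algebraMap D R c) a b =
      if a = b then algebraMap D A c else 0)
    (C : CoordD D Q x M) (hC : ∀ r a b, ε (ρ r a b) = C.ρ r a b)
    (σ : S →+* D) (hσ : ∀ a, σ (algebraMap A S a) = ε a) (q : Ideal S) [q.IsPrime]
    (hq : q ≤ RingHom.ker σ) [Module.Finite R M] (hreg : RegSys x M)
    (hst : ∀ l, StabAnn (x l) M)
    (hrig : ∀ (E : Type u) [AddCommGroup E] [Module R E] (f : M →ₗ[R] E) (g : E →ₗ[R] M),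
      Function.Injective f → Function.Surjective g →
      LinearMap.range f = LinearMap.ker g → ∃ s : M →ₗ[R] E, g ∘ₗ s = LinearMap.id)
    {n : ℕ} (r : Fin n → R) :
    ∃ g : Matrix (Ix2 Q d) (Ix2 Q d) (S ⧸ q), IsUnit g.det ∧
      ∀ (k : Fin n) (a b : Ix2 Q d),
        ∑ b', Ideal.Quotient.mk q (algebraMap A S (ρ (r k) a.1 b'.1)) * g b' b =
        ∑ b', g a b' * Ideal.Quotient.mk q (algebraMap A S (algebraMap D A
          (C.ρ (r k) b'.1 b.1))) := by
  let _ : Algebra D S := ((algebraMap A S).comp (algebraMap D A)).toAlgebra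
  have hDS : ∀ c : D, algebraMap D S c = algebraMap A S (algebraMap D A c) := fun _ => rfl
  have hloc : IsLocalRing (S ⧸ q) := IsLocalRing.of_surjective' _ Ideal.Quotient.mk_surjective
  have hcomp : IsAdicComplete (maximalIdeal (S ⧸ q)) (S ⧸ q) := isAdicComplete_quotient q
  let σ' : S →ₐ[D] D :=
    { σ with
      commutes' := fun c => by
        show σ (algebraMap A S (algebraMap D A c)) = c
        rw [hσ]
        exact AlgHom.commutes ε c }
  have hσ' : ∀ s, σ' s = σ s := fun _ => rfl
  let εT : S ⧸ q →ₐ[D] D := Ideal.Quotient.liftₐ q σ' (fun a ha => hq ha)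
  have hεT : ∀ s, εT (Ideal.Quotient.mk q s) = σ s := fun _ => rfl
  have hDT : ∀ c : D, algebraMap D (S ⧸ q) c =
    Ideal.Quotient.mk q (algebraMap A S (algebraMap D A c)) := fun _ => rfl
  let ρT : R →+* Matrix (Q × (Fin d → Fin 5)) (Q × (Fin d → Fin 5)) (S ⧸ q) :=
    (RingHom.mapMatrix ((Ideal.Quotient.mk q).comp (algebraMap A S))).comp ρ
  have hρT : ∀ r a b, ρT r a b = Ideal.Quotient.mk q (algebraMap A S (ρ r a b)) :=
    fun _ _ _ => rfl
  have hερ : ∀ r a b, εT (ρT r a b) = C.ρ r a b := by
    intro r a b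
    rw [hρT, hεT, hσ, hC]
  let F : FiberD εT ρT x M :=
    { θ := C.θ
      smul := fun r m a => by
        rw [C.smul]
        exact Finset.sum_congr rfl fun b _ => by rw [hερ]
      surj := C.surj
      ker := C.ker }
  obtain ⟨g, hg1, hg2⟩ := exists_intertwiner_complete (ε := εT) (ρ := ρT) (x := x)
    (fun l => by
      ext a b
      rw [hρT, hx]
      unfold shiftMat
      split_ifs
      · rw [map_one, map_one]
      · rw [map_zero, map_zero])
    (fun c a b => by
      rw [hρT, hρD, hDT]
      split_ifs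
      · rfl
      · rw [map_zero, map_zero]) F hreg hst hrig r
  refine ⟨g, ?_, fun k a b => ?_⟩
  · have h1 : εT g.det = 1 := by
      rw [AlgHom.map_det]
      have : εT.mapMatrix g = 1 := by
        ext a b
        rw [AlgHom.mapMatrix_apply, Matrix.map_apply, hg1, Matrix.one_apply]
      rw [this, Matrix.det_one]
    by_contra hnu
    have h2 : g.det ∈ maximalIdeal (S ⧸ q) := (mem_maximalIdeal _).mpr hnu
    have h3 : 1 - g.det ∈ maximalIdeal (S ⧸ q) := by
      have h4 : RingHom.ker εT ≠ ⊤ := RingHom.ker_ne_top _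
      apply IsLocalRing.le_maximalIdeal h4
      rw [RingHom.mem_ker, map_sub, map_one, h1, sub_self]
    have h5 := add_mem h3 h2
    rw [sub_add_cancel] at h5
    exact (maximalIdeal.isMaximal (S ⧸ q)).ne_top ((Ideal.eq_top_iff_one _).mpr h5)
  · have h1 := hg2 k a b
    simp only [hερ] at h1
    simp only [hDT, hρT] at h1
    exact h1

end Quot

section Residue

variable {A S : Type*} [CommRing A] [CommRing S] [Algebra A S]

/-- Descent of intertwiners to residue fields. -/
theorem descend_residue {n ι : Type*} [Fintype n] [DecidableEq n] (F G : ι → Matrix n n A)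
    (q : Ideal S) (g : Matrix n n (S ⧸ q)) (hg : IsUnit g.det)
    (h : ∀ i, (F i).map ((Ideal.Quotient.mk q).comp (algebraMap A S)) * g =
      g * (G i).map ((Ideal.Quotient.mk q).comp (algebraMap A S)))
    (P : Ideal S) [P.IsPrime] (hqP : q ≤ P) (m : Ideal A) [m.IsPrime] [Infinite m.ResidueField]
    (hm : m = P.comap (algebraMap A S)) :
    ∃ g' : Matrix n n m.ResidueField, g'.det ≠ 0 ∧
      ∀ i, (F i).map (algebraMap A m.ResidueField) * g' =
        g' * (G i).map (algebraMap A m.ResidueField) := by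
  let τ : S ⧸ q →+* P.ResidueField := Ideal.Quotient.lift q (algebraMap S P.ResidueField)
    (fun a ha => by
      rw [Ideal.algebraMap_residueField_eq_zero]
      exact hqP ha)
  have hτ : ∀ s, τ (Ideal.Quotient.mk q s) = algebraMap S P.ResidueField s := fun _ => rfl
  let ψ : m.ResidueField →+* P.ResidueField := Ideal.ResidueField.map m P (algebraMap A S) hm
  have hψ : ∀ a, ψ (algebraMap A m.ResidueField a) =
      algebraMap S P.ResidueField (algebraMap A S a) :=
    fun a => Ideal.ResidueField.map_algebraMap m P (algebraMap A S) hm a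
  apply exists_descent ψ (fun i => (F i).map (algebraMap A m.ResidueField))
    (fun i => (G i).map (algebraMap A m.ResidueField)) (g.map τ)
  · have h1 : (g.map τ).det = τ g.det := by
      rw [RingHom.map_det, RingHom.mapMatrix_apply]
    rw [h1]
    exact (hg.map τ).ne_zero
  · intro i
    have h1 := congrArg (fun N => N.map τ) (h i)
    simp only [Matrix.map_mul] at h1
    have h2 : ∀ N : Matrix n n A, (N.map ((Ideal.Quotient.mk q).comp (algebraMap A S))).map τ =
        (N.map (algebraMap A m.ResidueField)).map ψ := by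
      intro N
      ext a b
      simp only [Matrix.map_apply, RingHom.comp_apply]
      rw [hτ, hψ]
    rw [h2, h2] at h1
    exact h1

/-- Two families of constant matrices that are similar to the same family over an extension are
similar. -/
theorem similar_of_common {K κ : Type*} [Field K] [Infinite K] [Field κ] (φ : K →+* κ)
    {n ι : Type*} [Fintype n] [DecidableEq n] (F : ι → Matrix n n κ) (G₀ G₁ : ι → Matrix n n K)
    (g₀ g₁ : Matrix n n κ) (h₀ : g₀.det ≠ 0) (h₁ : g₁.det ≠ 0)
    (hF₀ : ∀ i, F i * g₀ = g₀ * (G₀ i).map φ) (hF₁ : ∀ i, F i * g₁ = g₁ * (G₁ i).map φ) :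
    ∃ g : Matrix n n K, g.det ≠ 0 ∧ ∀ i, G₁ i * g = g * G₀ i := by
  apply exists_descent φ G₁ G₀ (g₁⁻¹ * g₀)
  · rw [Matrix.det_mul]
    refine mul_ne_zero ?_ h₀
    rw [Matrix.det_nonsing_inv, Ring.inverse_eq_inv']
    exact inv_ne_zero h₁
  · intro i
    have hu : IsUnit g₁.det := isUnit_iff_ne_zero.mpr h₁
    have h2 : (G₁ i).map φ = g₁⁻¹ * (F i * g₁) := by
      rw [hF₁, ← mul_assoc, Matrix.nonsing_inv_mul _ hu, one_mul]
    rw [h2, mul_assoc, mul_assoc, mul_assoc, ← hF₀]
    congr 1
    rw [← mul_assoc g₁, Matrix.mul_nonsing_inv _ hu, one_mul]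

end Residue

end Pool.Agent.Lib.MP_682396_ag
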