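import Pool.Agent.Lib.MP_682396_ag.Curve.Inf

/-!
# Families over complete local domains with a section through a rigid module
-/

set_option autoImplicit false
set_option linter.unusedSectionVars false

open Module IsLocalRing
open scoped Pointwise

universe u v w

namespace Pool.Agent.Lib.MP_682396_ag

open Tw

section Cosets

variable {T : Type*} [CommRing T] [IsNoetherianRing T] [IsLocalRing T]
  [IsAdicComplete (maximalIdeal T) T]

theorem exists_mem_cosets' {X : Type*} [Finite X] (N : ℕ → Submodule T (X → T)) (hN : Antitone N)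
    (z : ℕ → X → T) (hz : ∀ e, z (e + 1) - z e ∈ N e) :
    ∃ w : X → T, ∀ e, w - z e ∈ N e := by
  let L : (X → T) ≃ₗ[T] (Fin (Nat.card X) → T) :=
    LinearEquiv.funCongrLeft T T (Finite.equivFin X).symm
  obtain ⟨w, hw⟩ := exists_mem_cosets (fun e => (N e).map L.toLinearMap)
    (fun a b hab => Submodule.map_mono (hN hab)) (fun e => L (z e)) (fun e => by
      rw [← map_sub]
      exact ⟨_, hz e, rfl⟩)
  refine ⟨L.symm w, fun e => ?_⟩
  obtain ⟨v, hv, hvw⟩ := hw e
  have h1 : L.symm w - z e = v := by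
    apply L.injective
    rw [map_sub, LinearEquiv.apply_symm_apply]
    exact hvw.symm
  rw [h1]
  exact hv

end Cosets

section Family

variable {D : Type*} [CommRing D] {A : Type*} [CommRing A] [Algebra D A]
  {R : Type u} [CommRing R] [Algebra D R] {Q : Type*} [Fintype Q] [DecidableEq Q] {d : ℕ}

/-- The linear map measuring the failure of the intertwining property. -/
def defectD (ε : A →ₐ[D] D)
    (ρ : R →+* Matrix (Q × (Fin d → Fin 5)) (Q × (Fin d → Fin 5)) A) {n : ℕ} (r : Fin n → R) :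
    (Ix2 Q d × Ix2 Q d → A) →ₗ[A] (Fin n × Ix2 Q d × Ix2 Q d → A) where
  toFun g t := ∑ b', ρ (r t.1) t.2.1.1 b'.1 * g (b', t.2.2) -
        ∑ b', g (t.2.1, b') * algebraMap D A (ε (ρ (r t.1) b'.1 t.2.2.1))
  map_add' g g' := by
    funext t
    simp only [Pi.add_apply, mul_add, add_mul, Finset.sum_add_distrib]
    ring
  map_smul' c g := by
    funext t
    simp only [Pi.smul_apply, smul_eq_mul, RingHom.id_apply, mul_sub, Finset.mul_sum]
    congr 1
    · exact Finset.sum_congr rfl fun b' _ => by ring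
    · exact Finset.sum_congr rfl fun b' _ => by ring

end Family

section KL

variable {D : Type*} [CommRing D] [IsDomain D] [IsPrincipalIdealRing D] {T : Type*} [CommRing T]
  [IsDomain T] [IsNoetherianRing T] [IsLocalRing T] [IsAdicComplete (maximalIdeal T) T]
  [Algebra D T] {ε : T →ₐ[D] D}
  {R : Type u} [CommRing R] [Algebra D R] {Q : Type*} [Fintype Q] [DecidableEq Q] {d : ℕ}
  {ρ : R →+* Matrix (Q × (Fin d → Fin 5)) (Q × (Fin d → Fin 5)) T} {x : Fin d → R}
  {M : Type u} [AddCommGroup M] [Module R M]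

/-- Over a complete local domain with a section whose fibre is a rigid module, the family is
constant below level two. -/
theorem exists_intertwiner_complete (hx : ∀ l, ρ (x l) = shiftMat T Q l)
    (hρD : ∀ (c : D) (a b : Q × (Fin d → Fin 5)), ρ (algebraMap D R c) a b =
      if a = b then algebraMap D T c else 0)
    (F : FiberD ε ρ x M) [Module.Finite R M] (hreg : RegSys x M) (hst : ∀ l, StabAnn (x l) M)
    (hrig : ∀ (E : Type u) [AddCommGroup E] [Module R E] (f : M →ₗ[R] E) (g : E →ₗ[R] M),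
      Function.Injective f → Function.Surjective g →
      LinearMap.range f = LinearMap.ker g → ∃ s : M →ₗ[R] E, g ∘ₗ s = LinearMap.id)
    {n : ℕ} (r : Fin n → R) :
    ∃ g : Matrix (Ix2 Q d) (Ix2 Q d) T, (∀ a b, ε (g a b) = if a = b then 1 else 0) ∧
      ∀ (k : Fin n) (a b : Ix2 Q d), ∑ b', ρ (r k) a.1 b'.1 * g b' b =
        ∑ b', g a b' * algebraMap D T (ε (ρ (r k) b'.1 b.1)) := by
  have hprime : (RingHom.ker ε).IsPrime := RingHom.ker_isPrime _
  have h0 : symb (RingHom.ker ε) 0 = RingHom.ker ε := symb_zero _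
  have hJ : ∀ e, symb (RingHom.ker ε) e ≤ RingHom.ker ε := fun e =>
    (symb_le _ (Nat.zero_le e)).trans h0.le
  have hstep : ∀ e : ℕ, ∃ g : Ix2 Q d → Ix2 Q d → T, (∀ a b, ε (g a b) = if a = b then 1 else 0) ∧
      ∀ (r : R) (a b : Ix2 Q d), ∑ b', ρ r a.1 b'.1 * g b' b -
        ∑ b', g a b' * algebraMap D T (ε (ρ r b'.1 b.1)) ∈ symb (RingHom.ker ε) e := by
    intro e
    refine exists_inf_intertwinerD hx hρD F hreg hst hrig (symb (RingHom.ker ε) e) (hJ e) ?_
    intro m Ω hΩ h43
    have h1 := ext32_symb ε hx hΩ h43 e (Nat.zero_le e) (Nat.zero_add e).symm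
    refine h1.equiv hx (LinearEquiv.ofEq _ _ ?_)
    ext w
    obtain ⟨a, rfl⟩ := Submodule.Quotient.mk_surjective _ w
    rw [mk_mem_layer, h0, LinearMap.mem_ker, factor_mk', Submodule.Quotient.mk_eq_zero]
  choose g hg1 hg2 using hstep
  let L := defectD ε ρ r
  let N : ℕ → Submodule T (Ix2 Q d × Ix2 Q d → T) := fun e =>
    (Submodule.pi Set.univ fun _ => RingHom.ker ε) ⊓
      (Submodule.pi Set.univ fun _ => symb (RingHom.ker ε) e).comap L
  have hN : ∀ e v, v ∈ N e ↔ (∀ i, v i ∈ RingHom.ker ε) ∧ ∀ t, L v t ∈ symb (RingHom.ker ε) e := by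
    intro e v
    simp [N, Submodule.mem_pi]
  have hNa : Antitone N := by
    intro a b hab v hv
    rw [hN] at hv ⊢
    exact ⟨hv.1, fun t => symb_le _ hab (hv.2 t)⟩
  let z : ℕ → Ix2 Q d × Ix2 Q d → T := fun e i => g e i.1 i.2
  have hLz : ∀ e t, L (z e) t ∈ symb (RingHom.ker ε) e := fun e t => hg2 e (r t.1) t.2.1 t.2.2
  obtain ⟨w, hw⟩ := exists_mem_cosets' N hNa z (by
    intro e
    rw [hN]
    constructor
    · intro i
      rw [RingHom.mem_ker, Pi.sub_apply, map_sub, sub_eq_zero]
      exact (hg1 _ _ _).trans (hg1 _ _ _).symm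
    · intro t
      rw [map_sub, Pi.sub_apply]
      exact sub_mem (symb_le _ (Nat.le_succ e) (hLz _ t)) (hLz e t))
  refine ⟨fun a b => w (a, b), fun a b => ?_, fun k a b => ?_⟩
  · have h1 := ((hN _ _).mp (hw 0)).1 (a, b)
    rw [RingHom.mem_ker, Pi.sub_apply, map_sub, sub_eq_zero] at h1
    exact h1.trans (hg1 0 a b)
  · have h1 : L w (k, a, b) = 0 := by
      apply eq_zero_of_forall_mem_symb (RingHom.ker ε)
      intro e
      have h2 := ((hN _ _).mp (hw e)).2 (k, a, b)
      rw [map_sub, Pi.sub_apply] at h2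
      have h3 := add_mem h2 (hLz e (k, a, b))
      rwa [sub_add_cancel] at h3
    exact sub_eq_zero.mp h1

end KL

end Pool.Agent.Lib.MP_682396_ag
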