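import Pool.Agent.Lib.MP_682396_ag.Curve.Inter

/-!
# The coefficient algebra of a sequence of modules
-/

set_option autoImplicit false
set_option linter.unusedSectionVars false

open Module IsLocalRing
open scoped Pointwise

universe u v w

namespace Pool.Agent.Lib.MP_682396_ag

open Tw

section SeqAlg

variable {D : Type*} [CommRing D] {R : Type u} [CommRing R] [Algebra D R] {Q : Type*} [Fintype Q]
  [DecidableEq Q] {d : ℕ} {x : Fin d → R} {n : ℕ} (r : Fin n → R) {M : ℕ → Type u}
  [∀ i, AddCommGroup (M i)] [∀ i, Module R (M i)] (C : ∀ i, CoordD D Q x (M i))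

/-- The algebra generated by the coefficient functions. -/
def seqAlg : Subalgebra D (ℕ → D) := Algebra.adjoin D
    (Set.range fun t : Fin n × (Q × (Fin d → Fin 5)) × (Q × (Fin d → Fin 5)) =>
      fun i : ℕ => (C i).ρ (r t.1) t.2.1 t.2.2)

theorem seqAlg_isNoetherianRing [IsNoetherianRing D] : IsNoetherianRing (seqAlg r C) := by
  apply isNoetherianRing_of_fg
  exact Subalgebra.fg_def.mpr ⟨_, Set.finite_range _, rfl⟩

/-- Evaluation at an index. -/
def seqEv (i : ℕ) : seqAlg r C →ₐ[D] D := (Pi.evalAlgHom D (fun _ : ℕ => D) i).comp (seqAlg r C).val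

theorem seqEv_apply (i : ℕ) (f : seqAlg r C) : seqEv r C i f = f.1 i := rfl

/-- The family of matrices over the coefficient algebra. -/
theorem exists_seqRho (hspan : ∀ r' : R, ∃ c : Fin n → D,
      r' - ∑ k, algebraMap D R (c k) * r k ∈ lev x R fun _ => 5) :
    ∃ ρ : R →+* Matrix (Q × (Fin d → Fin 5)) (Q × (Fin d → Fin 5)) (seqAlg r C),
      (∀ r' a b i, seqEv r C i (ρ r' a b) = (C i).ρ r' a b) ∧
      (∀ l, ρ (x l) = shiftMat (seqAlg r C) Q l) ∧
      ∀ (c : D) (a b : Q × (Fin d → Fin 5)), ρ (algebraMap D R c) a b =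
        if a = b then algebraMap D (seqAlg r C) c else 0 := by
  have hmem : ∀ (r' : R) (a b : Q × (Fin d → Fin 5)), (fun i => (C i).ρ r' a b) ∈ seqAlg r C := by
    intro r' a b
    obtain ⟨c, hc⟩ := hspan r'
    have h1 : (fun i => (C i).ρ r' a b) = ∑ k, c k • fun i => (C i).ρ (r k) a b := by
      funext i
      rw [(C i).ρ_span hc a b, Finset.sum_apply]
      rfl
    rw [h1]
    refine Subalgebra.sum_mem _ fun k _ => Subalgebra.smul_mem _ ?_ _
    exact Algebra.subset_adjoin (Set.mem_range_self (k, a, b))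
  let ent : R → Matrix (Q × (Fin d → Fin 5)) (Q × (Fin d → Fin 5)) (seqAlg r C) :=
    fun r' => Matrix.of fun a b => ⟨fun i => (C i).ρ r' a b, hmem r' a b⟩
  have hent : ∀ r' a b i, (ent r' a b).1 i = (C i).ρ r' a b := fun _ _ _ _ => rfl
  let ρ : R →+* Matrix (Q × (Fin d → Fin 5)) (Q × (Fin d → Fin 5)) (seqAlg r C) :=
    { toFun := ent
      map_one' := by
        ext a b i
        rw [hent, map_one, Matrix.one_apply, Matrix.one_apply]
        split_ifs <;> rfl
      map_mul' := fun p q => by
        ext a b i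
        rw [hent, map_mul, Matrix.mul_apply, Matrix.mul_apply]
        rw [AddSubmonoidClass.coe_finsetSum, Finset.sum_apply]
        rfl
      map_zero' := by
        ext a b i
        rw [hent, map_zero]
        rfl
      map_add' := fun p q => by
        ext a b i
        rw [hent, map_add]
        rfl }
  have hρ : ∀ r' a b i, (ρ r' a b).1 i = (C i).ρ r' a b := fun _ _ _ _ => rfl
  refine ⟨ρ, hρ, ?_, ?_⟩
  · intro l
    ext a b i
    rw [hρ, (C i).shift]
    unfold shiftMat
    split_ifs <;> rfl
  · intro c a b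
    ext i
    rw [hρ, (C i).scalar]
    split_ifs <;> rfl

/-- Elements of the base that are nonzero divisors are regular on the coefficient algebra. -/
theorem isSMulRegular_seqAlg {π : D} (hπ : IsSMulRegular D π) :
    IsSMulRegular (seqAlg r C) (algebraMap D (seqAlg r C) π) := by
  intro f g h
  apply Subtype.ext
  funext i
  apply hπ
  have h1 := congrArg (seqEv r C i) h
  simp only [smul_eq_mul, map_mul, AlgHom.commutes] at h1
  exact h1

section Max

variable {K : Type*} [Field K] [Algebra K D] (p : D →ₐ[K] K)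

/-- The maximal ideal given by an index. -/
def seqMax (i : ℕ) : Ideal (seqAlg r C) :=
  RingHom.ker ((p : D →+* K).comp (seqEv r C i : seqAlg r C →+* D))

theorem mem_seqMax (i : ℕ) (f : seqAlg r C) : f ∈ seqMax r C p i ↔ p (f.1 i) = 0 := Iff.rfl

theorem seqMax_isMaximal (i : ℕ) : (seqMax r C p i).IsMaximal := by
  apply RingHom.ker_isMaximal_of_surjective
  intro c
  refine ⟨algebraMap D _ (algebraMap K D c), ?_⟩
  show p (seqEv r C i (algebraMap D _ (algebraMap K D c))) = c
  rw [AlgHom.commutes]
  exact AlgHom.commutes p c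

theorem seqMax_res (i : ℕ) (f : seqAlg r C) :
    ∃ c : K, f - algebraMap D (seqAlg r C) (algebraMap K D c) ∈ seqMax r C p i := by
  refine ⟨p (f.1 i), ?_⟩
  rw [mem_seqMax]
  show p (f.1 i - algebraMap K D (p (f.1 i))) = 0
  rw [map_sub, AlgHom.commutes p, sub_eq_zero]
  rfl

/-- If all reductions agree, the maximal ideals agree. -/
theorem seqMax_eq (h : ∀ i j r a b, p ((C i).ρ r a b) = p ((C j).ρ r a b)) (i j : ℕ) :
    seqMax r C p i = seqMax r C p j := by
  have key : ∀ f ∈ seqAlg r C, p (f i) = p (f j) := by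
    intro f hf
    induction hf using Algebra.adjoin_induction with
    | mem f hf =>
      obtain ⟨t, rfl⟩ := hf
      exact h i j _ _ _
    | algebraMap c => rfl
    | add f g _ _ hf hg =>
      show p (f i + g i) = p (f j + g j)
      rw [map_add, map_add, hf, hg]
    | mul f g _ _ hf hg =>
      show p (f i * g i) = p (f j * g j)
      rw [map_mul, map_mul, hf, hg]
  ext f
  rw [mem_seqMax, mem_seqMax, key f.1 f.2]

end Max

end SeqAlg

end Pool.Agent.Lib.MP_682396_ag
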