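import Pool.Agent.Lib.MP_682396_ag.Curve.StepB
import Pool.Agent.Lib.MP_682396_ag.Curve.BasisLift

/-!
# Sequences of rigid modules free over a power series ring over a discrete valuation ring
-/

set_option autoImplicit false
set_option linter.unusedSectionVars false

open Module IsLocalRing
open scoped Pointwise

universe u v w

namespace Pool.Agent.Lib.MP_682396_ag

open Tw

/-- Among infinitely many rigid modules two are related by a surjection. -/
theorem exists_surjective_seq_curve {D : Type u} [CommRing D] [IsDomain D]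
    [IsPrincipalIdealRing D] [IsLocalRing D] [IsAdicComplete (maximalIdeal D) D] {K : Type*}
    [Field K] [Infinite K] [Algebra K D] (p : D →ₐ[K] K) {π : D} (hπ0 : π ≠ 0)
    (hp : ∀ c, p c = 0 ↔ π ∣ c) {d : ℕ}
    {R : Type u} [CommRing R] [IsLocalRing R] [Algebra K R] [Algebra D R] [IsScalarTower K D R]
    [Algebra (MvPowerSeries (Fin d) D) R] [IsScalarTower D (MvPowerSeries (Fin d) D) R]
    (hx : ∀ l, xsD D d R l ∈ maximalIdeal R) {n : ℕ} (r : Fin n → R)
    (hspan : ∀ r' : R, ∃ c : Fin n → D,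
      r' - ∑ k, algebraMap D R (c k) * r k ∈ lev (xsD D d R) R fun _ => 5)
    (M : ℕ → Type u) [∀ i, AddCommGroup (M i)] [∀ i, Module R (M i)]
    [∀ i, Module (MvPowerSeries (Fin d) D) (M i)]
    [∀ i, IsScalarTower (MvPowerSeries (Fin d) D) R (M i)] [∀ i, Module.Finite R (M i)]
    {Q : Type*} [Fintype Q] [DecidableEq Q] (b : ∀ i, Basis Q (MvPowerSeries (Fin d) D) (M i))
    (hst : ∀ i l, StabAnn (xsD D d R l) (M i))
    (hrig : ∀ i (E : Type u) [AddCommGroup E] [Module R E] (f : M i →ₗ[R] E) (g : E →ₗ[R] M i),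
      Function.Injective f → Function.Surjective g →
      LinearMap.range f = LinearMap.ker g → ∃ s : M i →ₗ[R] E, g ∘ₗ s = LinearMap.id) :
    ∃ i j, i ≠ j ∧ ∃ ψ : M i →ₗ[R] M j, Function.Surjective ψ := by
  choose C hC using fun i => exists_coordD_of_basis (R := R) (b i)
  obtain ⟨T, hT, h⟩ := exists_infinite_surjective p hπ0 hp r hspan M C
    (fun i => regSys_of_basisD (b i)) hst hrig hx (fun i => regSys_quotD (b i) π)
  have hTi : Infinite T := Set.infinite_coe_iff.mpr hT
  let e : ℕ ↪ T := Infinite.natEmbedding T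
  have hπ : π ∈ maximalIdeal D := by
    rw [mem_maximalIdeal, mem_nonunits_iff]
    intro hu
    have h1 : IsUnit (p π) := hu.map p
    rw [(hp π).mpr dvd_rfl] at h1
    exact not_isUnit_zero h1
  have h2 : ∀ i, ∃ b' : Basis Q (MvPowerSeries (Fin d) D) (M (e i)),
      ∃ ψ : M (e i) →ₗ[R] QuotSMulTop (algebraMap D R π) (M (e 0)),
        ∀ q, ψ (b' q) = Submodule.Quotient.mk (b (e 0) q) := by
    intro i
    obtain ⟨ψ, hψ⟩ := h (e i) (e i).2 (e 0) (e 0).2
    obtain ⟨b', hb'⟩ := exists_basis_lift (b (e i)) (b (e 0)) hπ ψ hψ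
    exact ⟨b', ψ, hb'⟩
  choose b' ψ hb' using h2
  choose C' hC' using fun i => exists_coordD_of_basis (R := R) (b' i)
  have hcompat : ∀ i r a c, p ((C' i).ρ r a c) = p ((C (e 0)).ρ r a c) := fun i r a c =>
    rho_compat (p : D →+* K) ((hp π).mpr dvd_rfl) (b' i) (b (e 0)) (ψ i) (hb' i) (C' i) (C (e 0))
      (hC' i) (hC (e 0)) r a c
  obtain ⟨i, j, hij, φ, hφ⟩ := exists_surjective_of_constant p r hspan (fun i => M (e i)) C'
    (fun i => regSys_of_basisD (b' i)) (fun i => hst (e i)) (fun i => hrig (e i))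
    (fun i j r a c => (hcompat i r a c).trans (hcompat j r a c).symm)
  exact ⟨e i, e j, fun h => hij (e.injective (Subtype.ext h)),
    exists_surjective_lift hx (regSys_of_basisD (b' j)) (hst (e i)) φ hφ⟩

end Pool.Agent.Lib.MP_682396_ag
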