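import Pool.Agent.Lib.MP_682396_ag.Curve.Surj

/-!
# Two members of a sequence with constant reduction agree
-/

set_option autoImplicit false
set_option linter.unusedSectionVars false

open Module IsLocalRing
open scoped Pointwise

universe u v w

namespace Pool.Agent.Lib.MP_682396_ag

open Tw

section StepB

variable {D : Type u} [CommRing D] [IsDomain D] [IsPrincipalIdealRing D] [IsLocalRing D]
  [IsAdicComplete (maximalIdeal D) D] {K : Type*} [Field K] [Algebra K D]
  (p : D →ₐ[K] K)
  {R : Type u} [CommRing R] [Algebra D R]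
  {Q : Type*} [Fintype Q]
  [DecidableEq Q] {d : ℕ} {x : Fin d → R} {n : ℕ} (r : Fin n → R)
  (hspan : ∀ r' : R, ∃ c : Fin n → D,
      r' - ∑ k, algebraMap D R (c k) * r k ∈ lev x R fun _ => 5)
  (M : ℕ → Type u)
  [∀ i, AddCommGroup (M i)] [∀ i, Module R (M i)] [∀ i, Module.Finite R (M i)]
  (C : ∀ i, CoordD D Q x (M i)) (hreg : ∀ i, RegSys x (M i)) (hst : ∀ i l, StabAnn (x l) (M i))
  (hrig : ∀ i (E : Type u) [AddCommGroup E] [Module R E] (f : M i →ₗ[R] E) (g : E →ₗ[R] M i),
      Function.Injective f → Function.Surjective g →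
      LinearMap.range f = LinearMap.ker g → ∃ s : M i →ₗ[R] E, g ∘ₗ s = LinearMap.id)
  (hcompat : ∀ i j r a b, p ((C i).ρ r a b) = p ((C j).ρ r a b))

include hspan hreg hst hrig hcompat in
/-- In a sequence of rigid modules with constant reduction two agree up to level two. -/
theorem exists_surjective_of_constant :
    ∃ i j, i ≠ j ∧ ∃ φ : M i →ₗ[R] M j ⧸ lev x (M j) fun _ => 2, Function.Surjective φ := by
  let A := seqAlg r C
  have hAN : IsNoetherianRing A := seqAlg_isNoetherianRing r C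
  obtain ⟨ρ, hρ, hx, hρD⟩ := exists_seqRho r C hspan
  let φA : K →+* A := (algebraMap D A).comp (algebraMap K D)
  let _ : Algebra K A := φA.toAlgebra
  have hmax : (seqMax r C p 0).IsMaximal := seqMax_isMaximal r C p 0
  obtain ⟨B, _, _, _, hflat, hBN, hBc, hmap, hlift⟩ :=
    exists_completion.{u, u} (K := K) (A := A) (seqMax r C p 0) (fun a => seqMax_res r C p 0 a)
  have hev : ∀ i, ∀ a ∈ seqMax r C p 0, (seqEv r C i : A →+* D) a ∈ maximalIdeal D := by
    intro i a ha
    rw [seqMax_eq r C p hcompat 0 i] at ha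
    rw [mem_maximalIdeal, mem_nonunits_iff]
    intro hu
    have h1 : IsUnit (p (a.1 i)) := hu.map p
    rw [(mem_seqMax r C p i a).mp ha] at h1
    exact not_isUnit_zero h1
  choose σ hσ using fun i => hlift D (seqEv r C i : A →+* D) (hev i)
  have hq : ∀ i, ∃ q : minimalPrimes B, q.1 ≤ RingHom.ker (σ i) := by
    intro i
    have hkp : (RingHom.ker (σ i)).IsPrime := RingHom.ker_isPrime (σ i)
    obtain ⟨q, hq, hqσ⟩ := Ideal.exists_minimalPrimes_le (I := (⊥ : Ideal B))
      (J := RingHom.ker (σ i)) bot_le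
    exact ⟨⟨q, hq⟩, hqσ⟩
  choose q hqσ using hq
  have hfin : Finite (minimalPrimes B) := minimalPrimes.finite_of_isNoetherianRing B
  obtain ⟨i, j, hij, hqij⟩ := Finite.exists_ne_map_eq_of_infinite q
  have hqp : (q i).1.IsPrime := (q i).2.1.1
  obtain ⟨g, hg, hgint⟩ := exists_intertwiner_quot (ε := seqEv r C i) hx hρD (C i)
      (fun r a b => hρ r a b i) (σ i) (hσ i) (q i).1 (hqσ i) (hreg i) (hst i) (hrig i) r
  have hqj : (q i).1 ≤ RingHom.ker (σ j) := by
    rw [hqij]
    exact hqσ j
  let τ : B ⧸ (q i).1 →+* D := Ideal.Quotient.lift (q i).1 (σ j) (fun a ha => hqj ha)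
  have hτ : ∀ s, τ (Ideal.Quotient.mk (q i).1 s) = σ j s := fun _ => rfl
  refine ⟨i, j, hij, ?_⟩
  apply exists_surjective_of_intertwiner (C i) (C j) (g.map τ)
  · have h1 : (g.map τ).det = τ g.det := by
      rw [RingHom.map_det, RingHom.mapMatrix_apply]
    rw [h1]
    exact hg.map τ
  · intro r' a b
    obtain ⟨c, hc⟩ := hspan r'
    have h1 : ∀ i a b, (C i).ρ r' a b = ∑ k, c k * (C i).ρ (r k) a b := fun i a b =>
      (C i).ρ_span hc a b
    simp only [h1]
    refine intertwiner_of_span (fun k a b => (C j).ρ (r k) a.1 b.1)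
      (fun k a b => (C i).ρ (r k) a.1 b.1) c (g.map τ) (fun k a b => ?_) a b
    have h2 := congrArg τ (hgint k a b)
    rw [map_sum, map_sum] at h2
    have e1 : ∀ r' a b, τ (Ideal.Quotient.mk (q i).1 (algebraMap (seqAlg r C) B (ρ r' a b))) =
        (C j).ρ r' a b := fun r' a b => (hσ j _).trans (hρ r' a b j)
    have e2 : ∀ c : D, τ (Ideal.Quotient.mk (q i).1 (algebraMap (seqAlg r C) B
        (algebraMap D (seqAlg r C) c))) = c := fun c =>
      (hσ j _).trans (AlgHom.commutes (seqEv r C j) c)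
    refine Eq.trans ?_ (h2.trans ?_)
    · exact Finset.sum_congr rfl fun b' _ => by rw [map_mul, e1]; rfl
    · exact Finset.sum_congr rfl fun b' _ => by rw [map_mul, e2]; rfl

end StepB

end Pool.Agent.Lib.MP_682396_ag
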