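import Pool.Agent.Lib.MP_682396_ag.Curve.StepA
import Pool.Agent.Lib.MP_682396_ag.IsolatedSeq

/-!
# From intertwiners to surjections
-/

set_option autoImplicit false
set_option linter.unusedSectionVars false

open Module IsLocalRing
open scoped Pointwise

universe u v w

namespace Pool.Agent.Lib.MP_682396_ag

open Tw

/-- Intertwining relations are linear in the operators. -/
theorem intertwiner_of_span {K : Type*} [CommRing K] {I : Type*} [Fintype I] {n : ℕ}
    (F F' : Fin n → I → I → K) (c : Fin n → K) (G : Matrix I I K)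
    (h : ∀ k a b, ∑ b', F k a b' * G b' b = ∑ b', G a b' * F' k b' b) (a b : I) :
    ∑ b', (∑ k, c k * F k a b') * G b' b = ∑ b', G a b' * (∑ k, c k * F' k b' b) := by
  simp only [Finset.sum_mul, Finset.mul_sum]
  rw [Finset.sum_comm, Finset.sum_comm (s := Finset.univ (α := I))]
  refine Finset.sum_congr rfl fun k _ => ?_
  have h3 := congrArg (fun y => c k * y) (h k a b)
  simp only [Finset.mul_sum] at h3
  calc _ = ∑ b', c k * (F k a b' * G b' b) := Finset.sum_congr rfl fun b' _ => by ring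
    _ = ∑ b', c k * (G a b' * F' k b' b) := h3
    _ = _ := Finset.sum_congr rfl fun b' _ => by ring

section Surj

variable {K : Type*} [CommRing K] {R : Type u} [CommRing R] [Algebra K R] {Q : Type*} [Fintype Q]
  [DecidableEq Q] {d : ℕ} {x : Fin d → R} {M N : Type u} [AddCommGroup M] [Module R M]
  [AddCommGroup N] [Module R N]

/-- An invertible intertwiner gives a surjection onto the quotient by the second level. -/
theorem exists_surjective_of_intertwiner (C₀ : CoordD K Q x M) (C₁ : CoordD K Q x N)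
    (G : Matrix (Ix2 Q d) (Ix2 Q d) K) (hG : IsUnit G.det)
    (hint : ∀ (r' : R) (a b : Ix2 Q d), ∑ b', C₁.ρ r' a.1 b'.1 * G b' b =
      ∑ b', G a b' * C₀.ρ r' b'.1 b.1) :
    ∃ φ : M →ₗ[R] N ⧸ lev x N fun _ => 2, Function.Surjective φ := by
  let gG : M →+ (Ix2 Q d → K) := G.mulVecLin.toAddMonoidHom.comp C₀.θ2
  have hgG : ∀ m a, gG m a = ∑ b, G a b * C₀.θ2 m b := fun _ _ => rfl
  obtain ⟨φ, hφ⟩ := exists_linearMap_of_rel (lev x N fun _ => 2) C₁.θ2 C₁.θ2_surjective
    C₁.θ2_ker gG (by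
      intro r' m n h
      funext a
      rw [C₁.θ2_smul, hgG]
      simp only [h, hgG, C₀.θ2_smul, Finset.mul_sum]
      rw [Finset.sum_comm]
      conv_rhs => rw [Finset.sum_comm]
      refine Finset.sum_congr rfl fun b _ => ?_
      have h3 := congrArg (fun y => y * C₀.θ2 m b) (hint r' a b)
      simp only [Finset.sum_mul] at h3
      calc _ = ∑ b', C₁.ρ r' a.1 b'.1 * G b' b * C₀.θ2 m b :=
            Finset.sum_congr rfl fun b' _ => by ring
        _ = ∑ b', G a b' * C₀.ρ r' b'.1 b.1 * C₀.θ2 m b := h3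
        _ = _ := Finset.sum_congr rfl fun b' _ => by ring)
  refine ⟨φ, fun q => ?_⟩
  obtain ⟨n', rfl⟩ := Submodule.Quotient.mk_surjective _ q
  obtain ⟨m, hm⟩ := C₀.θ2_surjective (G⁻¹.mulVec (C₁.θ2 n'))
  refine ⟨m, hφ m n' ?_⟩
  show C₁.θ2 n' = G.mulVec (C₀.θ2 m)
  rw [hm, Matrix.mulVec_mulVec, Matrix.mul_nonsing_inv _ hG, Matrix.one_mulVec]

/-- Lifting a surjection from the second level. -/
theorem exists_surjective_lift [IsLocalRing R] [Module.Finite R N]
    (hx : ∀ l, x l ∈ maximalIdeal R) (hreg : RegSys x N) (hst : ∀ l, StabAnn (x l) M)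
    (φ : M →ₗ[R] N ⧸ lev x N fun _ => 2) (hφ : Function.Surjective φ) :
    ∃ ψ : M →ₗ[R] N, Function.Surjective ψ := by
  obtain ⟨ψ, hψ⟩ := lift_M hreg hst (k := 2) (by norm_num) φ
  refine ⟨ψ, surjective_of_lev hx ψ fun y => ?_⟩
  obtain ⟨m, hm⟩ := hφ (Submodule.Quotient.mk y)
  refine ⟨m, ?_⟩
  have h1 := hψ m
  rw [hm] at h1
  exact (Submodule.Quotient.eq _).mp h1.symm

end Surj

section StepA2

variable {D : Type u} [CommRing D] [IsDomain D] [IsPrincipalIdealRing D] [IsLocalRing D]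
  [IsAdicComplete (maximalIdeal D) D] {K : Type*} [Field K] [Infinite K] [Algebra K D]
  (p : D →ₐ[K] K) {π : D} (hπ0 : π ≠ 0) (hp : ∀ c, p c = 0 ↔ π ∣ c)
  {R : Type u} [CommRing R] [IsLocalRing R] [Algebra K R] [Algebra D R] [IsScalarTower K D R]
  {Q : Type*} [Fintype Q]
  [DecidableEq Q] {d : ℕ} {x : Fin d → R} {n : ℕ} (r : Fin n → R)
  (hspan : ∀ r' : R, ∃ c : Fin n → D,
      r' - ∑ k, algebraMap D R (c k) * r k ∈ lev x R fun _ => 5)
  (M : ℕ → Type u)
  [∀ i, AddCommGroup (M i)] [∀ i, Module R (M i)] [∀ i, Module.Finite R (M i)]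
  (C : ∀ i, CoordD D Q x (M i)) (hreg : ∀ i, RegSys x (M i)) (hst : ∀ i l, StabAnn (x l) (M i))
  (hrig : ∀ i (E : Type u) [AddCommGroup E] [Module R E] (f : M i →ₗ[R] E) (g : E →ₗ[R] M i),
      Function.Injective f → Function.Surjective g →
      LinearMap.range f = LinearMap.ker g → ∃ s : M i →ₗ[R] E, g ∘ₗ s = LinearMap.id)

include C hπ0 hp hspan hreg hst hrig in
/-- Infinitely many of the modules have the same reduction. -/
theorem exists_infinite_surjective (hx : ∀ l, x l ∈ maximalIdeal R)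
    (hreg' : ∀ i, RegSys x (QuotSMulTop (algebraMap D R π) (M i))) :
    ∃ T : Set ℕ, T.Infinite ∧ ∀ i ∈ T, ∀ j ∈ T,
      ∃ ψ : M i →ₗ[R] QuotSMulTop (algebraMap D R π) (M j), Function.Surjective ψ := by
  obtain ⟨T, hT, h⟩ := exists_infinite_similar p hπ0 hp r hspan M C hreg hst hrig
  refine ⟨T, hT, fun i hi j hj => ?_⟩
  obtain ⟨g, hg, hint⟩ := h i hi j hj
  obtain ⟨Ci, hCi, -⟩ := (C i).exists_red p π hp
  obtain ⟨Cj, hCj, -⟩ := (C j).exists_red p π hp
  obtain ⟨φ, hφ⟩ := exists_surjective_of_intertwiner Ci Cj g (isUnit_iff_ne_zero.mpr hg) (by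
    intro r' a b
    obtain ⟨c, hc⟩ := hspan r'
    have h1 : ∀ i a b, p ((C i).ρ r' a b) = ∑ k, p (c k) * p ((C i).ρ (r k) a b) := by
      intro i a b
      rw [(C i).ρ_span hc a b, map_sum]
      simp only [map_mul]
    simp only [hCi, hCj, h1]
    exact intertwiner_of_span (fun k a b => p ((C j).ρ (r k) a.1 b.1))
      (fun k a b => p ((C i).ρ (r k) a.1 b.1)) (fun k => p (c k)) g hint a b)
  exact exists_surjective_lift hx (hreg' j) (hst i) (φ ∘ₗ Submodule.mkQ _)
    (hφ.comp (Submodule.mkQ_surjective _))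

end StepA2

end Pool.Agent.Lib.MP_682396_ag
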